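import Mathlib

set_option autoImplicit false

namespace Pool.Agent.Lib.MP_4f3acd_an

open MeasureTheory Filter

variable {Ω : Type} [MeasurableSpace Ω] {P : Measure Ω} {𝕜 : Type} [RCLike 𝕜]

/-- The class y agrees with x k on a k, for every k. -/
def Glue (a : ℕ → Set Ω) (x : ℕ → Ω →ₘ[P] 𝕜) (y : Ω →ₘ[P] 𝕜) : Prop :=
  ∀ k, ∀ᵐ ω ∂P, ω ∈ a k → y ω = x k ω

/-- Sigma-stability of a set-valued map on L0. -/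
def SigmaStable (F : (Ω →ₘ[P] 𝕜) → Set (Ω →ₘ[P] 𝕜)) : Prop :=
  ∀ a : ℕ → Set Ω, (∀ k, MeasurableSet (a k)) → Pairwise (fun k l => Disjoint (a k) (a l)) →
    (⋃ k, a k) = Set.univ → ∀ (x : ℕ → Ω →ₘ[P] 𝕜) (y : Ω →ₘ[P] 𝕜), Glue a x y →
      F y = {z | ∃ w : ℕ → Ω →ₘ[P] 𝕜, (∀ k, w k ∈ F (x k)) ∧ Glue a w z}

/-- Open sets of the locally L0-convex topology. -/
def OpenC (U : Set (Ω →ₘ[P] 𝕜)) : Prop :=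
  ∀ x ∈ U, ∃ ε : Ω →ₘ[P] ℝ, (∀ᵐ ω ∂P, 0 < ε ω) ∧
    ∀ y : Ω →ₘ[P] 𝕜, (∀ᵐ ω ∂P, ‖y ω - x ω‖ < ε ω) → y ∈ U

/-- Open sets of the (epsilon, lambda)-topology. -/
def OpenEL (U : Set (Ω →ₘ[P] 𝕜)) : Prop :=
  ∀ x ∈ U, ∃ ε l : ℝ, 0 < ε ∧ 0 < l ∧ l < 1 ∧
    ∀ y : Ω →ₘ[P] 𝕜, 1 - l < P.real {ω | ‖y ω - x ω‖ < ε} → y ∈ U

/-- U is a neighbourhood of the set A for the topology with the given open sets. -/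
def Nbhd {E : Type} (op : Set E → Prop) (A U : Set E) : Prop :=
  ∃ O, op O ∧ A ⊆ O ∧ O ⊆ U

/-- Upper semicontinuity for the locally L0-convex topology. -/
def UscC (F : (Ω →ₘ[P] 𝕜) → Set (Ω →ₘ[P] 𝕜)) : Prop :=
  ∀ x₀ U, Nbhd OpenC (F x₀) U → ∃ V, Nbhd OpenC {x₀} V ∧ ∀ x ∈ V, F x ⊆ U

/-- Random sequential upper semicontinuity. -/
def UscRS (F : (Ω →ₘ[P] 𝕜) → Set (Ω →ₘ[P] 𝕜)) : Prop :=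
  ∀ (x₀ : Ω →ₘ[P] 𝕜) (x : ℕ → Ω →ₘ[P] 𝕜), TendstoInMeasure P (fun n => x n) atTop x₀ →
    ∀ V, Nbhd OpenEL (F x₀) V →
      ∃ (n : ℕ → Ω → ℕ) (y : ℕ → Ω →ₘ[P] 𝕜) (k₀ : ℕ), (∀ k, Measurable (n k)) ∧
        (∀ k, ∀ᵐ ω ∂P, n k ω < n (k + 1) ω) ∧ (∀ k, Glue (fun l => {ω | n k ω = l}) x (y k)) ∧
        ∀ k ≥ k₀, F (y k) ⊆ V

end Pool.Agent.Lib.MP_4f3acd_an
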