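import Pool.Agent.Lib.MP_4f3acd_an.Defs

set_option autoImplicit false

namespace Pool.Agent.Lib.MP_4f3acd_an

open MeasureTheory Filter Topology

section General
variable {Ω : Type} [MeasurableSpace Ω] {P : Measure Ω} {𝕜 : Type} [RCLike 𝕜]

theorem ball_nonempty (x : Ω →ₘ[P] 𝕜) :
    ({y | ∀ᵐ ω ∂P, ‖y ω - x ω‖ ≤ 1} : Set (Ω →ₘ[P] 𝕜)).Nonempty :=
  ⟨x, show ∀ᵐ ω ∂P, ‖x ω - x ω‖ ≤ 1 from Eventually.of_forall fun ω => by simp⟩

theorem ball_sigmaStable :
    SigmaStable (fun x : Ω →ₘ[P] 𝕜 => ({y | ∀ᵐ ω ∂P, ‖y ω - x ω‖ ≤ 1} : Set (Ω →ₘ[P] 𝕜))) := by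
  intro a _ _ hu x y hxy
  ext z
  constructor
  · intro hz
    refine ⟨fun k => x k + (z - y), fun k => ?_, fun k => ?_⟩
    · filter_upwards [hz, AEEqFun.coeFn_add (x k) (z - y), AEEqFun.coeFn_sub z y] with ω h1 h2 h3
      rw [h2, Pi.add_apply, h3, Pi.sub_apply]
      simpa using h1
    · filter_upwards [hxy k, AEEqFun.coeFn_add (x k) (z - y), AEEqFun.coeFn_sub z y]
        with ω h1 h2 h3 hω
      rw [h2, Pi.add_apply, h3, Pi.sub_apply, h1 hω]
      ring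
  · rintro ⟨w, hw, hz⟩
    have h1 := ae_all_iff.2 hw
    have h2 := ae_all_iff.2 hz
    have h3 := ae_all_iff.2 hxy
    filter_upwards [h1, h2, h3] with ω h1 h2 h3
    obtain ⟨k, hk⟩ := Set.mem_iUnion.1 (hu ▸ Set.mem_univ ω : ω ∈ ⋃ k, a k)
    rw [h2 k hk, h3 k hk]
    exact h1 k

end General

variable {P : Measure ℕ} {𝕜 : Type} [RCLike 𝕜]

theorem ae_iff_all (hP : ∀ n, P {n} ≠ 0) {p : ℕ → Prop} : (∀ᵐ ω ∂P, p ω) ↔ ∀ ω, p ω := by
  refine ⟨fun h ω => ?_, fun h => Eventually.of_forall h⟩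
  by_contra hω
  exact hP ω (measure_mono_null (Set.singleton_subset_iff.2 hω) (ae_iff.1 h))

/-- The class of a sequence. -/
noncomputable def cls {β : Type} [TopologicalSpace β] (P : Measure ℕ) (f : ℕ → β) : ℕ →ₘ[P] β :=
  AEEqFun.mk f StronglyMeasurable.of_discrete.aestronglyMeasurable

theorem cls_apply (hP : ∀ n, P {n} ≠ 0) {β : Type} [TopologicalSpace β] (f : ℕ → β) (n : ℕ) :
    cls P f n = f n :=
  (ae_iff_all hP).1 (AEEqFun.coeFn_mk f _) n

theorem cls_coe {β : Type} [TopologicalSpace β] (x : ℕ →ₘ[P] β) : cls P x = x :=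
  AEEqFun.mk_coeFn x

theorem isOpen_of_openEL [IsProbabilityMeasure P] (hP : ∀ n, P {n} ≠ 0)
    {O : Set (ℕ →ₘ[P] 𝕜)} (hO : OpenEL O) : IsOpen {f : ℕ → 𝕜 | cls P f ∈ O} := by
  rw [isOpen_iff_mem_nhds]
  intro f hf
  obtain ⟨ε, l, hε, hl, -, h⟩ := hO _ hf
  have ht : Tendsto (fun N : ℕ => P.real (Set.Iio N)) atTop (𝓝 1) := by
    have h1 := tendsto_measure_iUnion_atTop (μ := P) (s := fun N : ℕ => Set.Iio N)
      (fun a b hab => Set.Iio_subset_Iio hab)
    have h2 : (⋃ N : ℕ, Set.Iio N) = Set.univ := by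
      ext n; simp
    rw [h2, measure_univ] at h1
    exact (ENNReal.tendsto_toReal ENNReal.one_ne_top).comp h1
  obtain ⟨N, hN⟩ := (ht.eventually (lt_mem_nhds (show 1 - l < 1 by linarith))).exists
  have hev : ∀ᶠ g in 𝓝 f, ∀ n ∈ Finset.range N, ‖g n - f n‖ < ε := by
    rw [eventually_all_finset]
    intro n _
    have : Tendsto (fun g : ℕ → 𝕜 => ‖g n - f n‖) (𝓝 f) (𝓝 ‖f n - f n‖) :=
      (((continuous_apply n).sub continuous_const).norm).continuousAt
    rw [sub_self, norm_zero] at this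
    exact this.eventually (gt_mem_nhds hε)
  filter_upwards [hev] with g hg
  refine h _ (hN.trans_le (measureReal_mono fun n hn => ?_))
  simp only [Set.mem_ofPred_eq, cls_apply hP]
  exact hg n (Finset.mem_range.2 hn)

theorem tendsto_of_inMeasure (hP : ∀ n, P {n} ≠ 0) {x : ℕ → ℕ →ₘ[P] 𝕜} {x₀ : ℕ →ₘ[P] 𝕜}
    (h : TendstoInMeasure P (fun n => x n) atTop x₀) :
    Tendsto (fun n => (x n : ℕ → 𝕜)) atTop (𝓝 x₀) := by
  rw [tendsto_pi_nhds]
  intro ω
  rw [EMetric.tendsto_nhds]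
  intro ε hε
  filter_upwards [(h ε hε).eventually (gt_mem_nhds (pos_iff_ne_zero.2 (hP ω)))] with n hn
  by_contra hcon
  refine absurd (measure_mono (Set.singleton_subset_iff.2 ?_)) (not_le.2 hn)
  exact not_lt.1 hcon

theorem ball_uscRS [IsProbabilityMeasure P] (hP : ∀ n, P {n} ≠ 0) :
    UscRS (fun x : ℕ →ₘ[P] 𝕜 => ({y | ∀ᵐ ω ∂P, ‖y ω - x ω‖ ≤ 1} : Set (ℕ →ₘ[P] 𝕜))) := by
  rintro x₀ x hx V ⟨O, hO, hFO, hOV⟩
  have hK : IsCompact (Set.univ.pi fun _ : ℕ => Metric.closedBall (0 : 𝕜) 1) :=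
    isCompact_univ_pi fun _ => isCompact_closedBall _ _
  have hop := isOpen_of_openEL hP hO
  have hev : ∀ᶠ f in 𝓝 (x₀ : ℕ → 𝕜),
      ∀ u ∈ (Set.univ.pi fun _ : ℕ => Metric.closedBall (0 : 𝕜) 1), cls P (f + u) ∈ O := by
    refine hK.eventually_forall_of_forall_eventually fun u hu => ?_
    have hc : Continuous fun z : (ℕ → 𝕜) × (ℕ → 𝕜) => z.1 + z.2 := continuous_fst.add continuous_snd
    refine hc.continuousAt.eventually (hop.mem_nhds ?_)
    refine hFO ((ae_iff_all hP).2 fun ω => ?_)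
    rw [cls_apply hP]
    simpa using hu ω (Set.mem_univ _)
  obtain ⟨k₀, hk₀⟩ := eventually_atTop.1 ((tendsto_of_inMeasure hP hx).eventually hev)
  refine ⟨fun k _ => k, x, k₀, fun _ => measurable_const,
    fun k => Eventually.of_forall fun _ => Nat.lt_succ_self k,
    fun k l => Eventually.of_forall fun ω h => by rw [show k = l from h], fun k hk z hz => ?_⟩
  have := hk₀ k hk (z - x k) (fun ω _ => by simpa using (ae_iff_all hP).1 hz ω)
  rw [add_sub_cancel, cls_coe] at this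
  exact hOV this

theorem ball_not_uscC (hP : ∀ n, P {n} ≠ 0) :
    ¬ UscC (fun x : ℕ →ₘ[P] 𝕜 => ({y | ∀ᵐ ω ∂P, ‖y ω - x ω‖ ≤ 1} : Set (ℕ →ₘ[P] 𝕜))) := by
  intro h
  let U : Set (ℕ →ₘ[P] 𝕜) :=
    {y | ∀ r : ℝ, 0 < r → Tendsto (fun n => y n) atTop (𝓝 (r : 𝕜)) → ‖y 0‖ < 1 + r}
  have hlim : ∀ (y y' : ℕ →ₘ[P] 𝕜) (e : ℕ → ℝ), Tendsto e atTop (𝓝 0) →
      (∀ n, ‖y' n - y n‖ < e n) → ∀ c : 𝕜, Tendsto (fun n => y' n) atTop (𝓝 c) →
        Tendsto (fun n => y n) atTop (𝓝 c) := by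
    intro y y' e he hy c hc
    have h0 : Tendsto (fun n => y' n - y n) atTop (𝓝 0) :=
      squeeze_zero_norm (fun n => (hy n).le) he
    simpa using hc.sub h0
  have hU : OpenC U := by
    intro y hy
    by_cases hex : ∃ r : ℝ, 0 < r ∧ Tendsto (fun n => y n) atTop (𝓝 (r : 𝕜))
    · obtain ⟨r, hr, hyr⟩ := hex
      have hpos : 0 < 1 + r - ‖y 0‖ := sub_pos.2 (hy r hr hyr)
      refine ⟨cls P fun n => (1 + r - ‖y 0‖) / (n + 1), (ae_iff_all hP).2 fun n => ?_,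
        fun y' hy' r' _ hr' => ?_⟩
      · rw [cls_apply hP]; positivity
      · have hy'' := (ae_iff_all hP).1 hy'
        simp only [cls_apply hP] at hy''
        have hz : Tendsto (fun n : ℕ => (1 + r - ‖y 0‖) / ((n : ℝ) + 1)) atTop (𝓝 0) := by
          simpa [div_eq_mul_inv] using
            (tendsto_one_div_add_atTop_nhds_zero_nat (𝕜 := ℝ)).const_mul (1 + r - ‖y 0‖)
        have := hlim y y' _ hz hy'' _ hr'
        have hrr : r' = r := by exact_mod_cast tendsto_nhds_unique this hyr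
        have h0 := hy'' 0
        have h1 := norm_le_norm_add_norm_sub' (y' 0) (y 0)
        simp only [Nat.cast_zero, zero_add, div_one] at h0
        rw [hrr]
        linarith
    · refine ⟨cls P fun n => (1 : ℝ) / (n + 1), (ae_iff_all hP).2 fun n => ?_,
        fun y' hy' r' hr0 hr' => ?_⟩
      · rw [cls_apply hP]; positivity
      · have hy'' := (ae_iff_all hP).1 hy'
        simp only [cls_apply hP] at hy''
        exact absurd ⟨r', hr0, hlim y y' _ tendsto_one_div_add_atTop_nhds_zero_nat hy'' _ hr'⟩ hex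
  obtain ⟨V, ⟨O, hO, h0O, hOV⟩, hV⟩ := h (cls P 0) U ⟨U, hU, fun y hy r hr _ => by
    have := (ae_iff_all hP).1 hy 0
    simp only [cls_apply hP, Pi.zero_apply, sub_zero] at this
    linarith, subset_rfl⟩
  obtain ⟨δ, hδ, hδO⟩ := hO _ (h0O rfl)
  have hδ' := (ae_iff_all hP).1 hδ
  set r : ℝ := min (δ 0 / 2) 1 with hr
  have hr0 : 0 < r := lt_min (half_pos (hδ' 0)) one_pos
  have hr1 : r ≤ 1 := min_le_right _ _
  have hr2 : r < δ 0 := (min_le_left _ _).trans_lt (half_lt_self (hδ' 0))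
  have hx : cls P (fun n => if n = 0 then (r : 𝕜) else 0) ∈ V := by
    refine hOV (hδO _ ((ae_iff_all hP).2 fun n => ?_))
    simp only [cls_apply hP, Pi.zero_apply, sub_zero]
    split_ifs with hn
    · rw [hn, RCLike.norm_ofReal, abs_of_pos hr0]; exact hr2
    · simpa using hδ' n
  have hy : cls P (fun n => if n = 0 then ((1 + r : ℝ) : 𝕜) else (r : 𝕜)) ∈ U := by
    refine hV _ hx ((ae_iff_all hP).2 fun n => ?_)
    simp only [cls_apply hP]
    split_ifs with hn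
    · simp
    · rw [sub_zero, RCLike.norm_ofReal, abs_of_pos hr0]; exact hr1
  have := hy r hr0 (by
    refine tendsto_const_nhds.congr' ?_
    filter_upwards [eventually_ne_atTop 0] with n hn
    simp only [cls_apply hP, if_neg hn])
  simp only [cls_apply hP, if_true, RCLike.norm_ofReal] at this
  rw [abs_of_pos (by linarith)] at this
  exact lt_irrefl _ this

end Pool.Agent.Lib.MP_4f3acd_an
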