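import Pool.Agent.Lib.MP_4f3acd_an.RNBasic

set_option autoImplicit false

namespace Pool.Agent.Lib.MP_4f3acd_an.RN

open MeasureTheory Filter Topology Set

variable {Ω : Type} [MeasurableSpace Ω] {P : Measure Ω}

namespace MeasAux

theorem half [IsFiniteMeasure P] {G : Set Ω} (hG : ∀ b, b ⊆ G → ¬ IsAtom P b)
    {S : Set Ω} (hS : MeasurableSet S) (hSG : S ⊆ G) (h0 : P S ≠ 0) :
    ∃ T, MeasurableSet T ∧ T ⊆ S ∧ P T ≠ 0 ∧ P.real T ≤ P.real S / 2 := by
  have h1 : ∃ b, MeasurableSet b ∧ b ⊆ S ∧ P b ≠ 0 ∧ P b ≠ P S := by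
    by_contra hc
    refine hG S hSG ⟨hS, h0, fun b hb hbS => ?_⟩
    by_contra hb2
    exact hc ⟨b, hb, hbS, fun e => hb2 (Or.inl e), fun e => hb2 (Or.inr e)⟩
  obtain ⟨b, hb, hbS, hb0, hb1⟩ := h1
  have e : P.real (S \ b) = P.real S - P.real b := measureReal_sdiff hbS hb
  by_cases hle : P.real b ≤ P.real S / 2
  · exact ⟨b, hb, hbS, hb0, hle⟩
  · refine ⟨S \ b, hS.diff hb, sdiff_subset, fun h => hb1 ?_, by rw [e]; linarith⟩
    have := measure_inter_add_sdiff (μ := P) S hb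
    rw [h, add_zero, inter_eq_self_of_subset_right hbS] at this
    exact this

theorem small_pow [IsFiniteMeasure P] {G : Set Ω} (hG : ∀ b, b ⊆ G → ¬ IsAtom P b)
    {S : Set Ω} (hS : MeasurableSet S) (hSG : S ⊆ G) (h0 : P S ≠ 0) (n : ℕ) :
    ∃ T, MeasurableSet T ∧ T ⊆ S ∧ P T ≠ 0 ∧ P.real T ≤ P.real S * (1 / 2) ^ n := by
  induction n with
  | zero => exact ⟨S, hS, Subset.rfl, h0, by simp⟩
  | succ n ih =>
    obtain ⟨T, hT, hTS, hT0, hT1⟩ := ih
    obtain ⟨U, hU, hUT, hU0, hU1⟩ := half hG hT (hTS.trans hSG) hT0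
    refine ⟨U, hU, hUT.trans hTS, hU0, ?_⟩
    rw [pow_succ]
    linarith

theorem small [IsFiniteMeasure P] {G : Set Ω} (hG : ∀ b, b ⊆ G → ¬ IsAtom P b)
    {S : Set Ω} (hS : MeasurableSet S) (hSG : S ⊆ G) (h0 : P S ≠ 0) {c : ℝ} (hc : 0 < c) :
    ∃ T, MeasurableSet T ∧ T ⊆ S ∧ P T ≠ 0 ∧ P.real T ≤ c := by
  have hp : 0 < P.real S := real_pos h0
  obtain ⟨n, hn⟩ := exists_pow_lt_of_lt_one (div_pos hc hp) (show (1 / 2 : ℝ) < 1 by norm_num)
  obtain ⟨T, hT, hTS, hT0, hT1⟩ := small_pow hG hS hSG h0 n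
  refine ⟨T, hT, hTS, hT0, hT1.trans ?_⟩
  rw [lt_div_iff₀ hp] at hn
  linarith

theorem add_le [IsFiniteMeasure P] {R A B W : Set Ω} (hB : MeasurableSet B) (hA : A ⊆ R)
    (hBR : B ⊆ Rᶜ) (hAW : A ⊆ W) (hBW : B ⊆ W) : P.real A + P.real B ≤ P.real W := by
  have hd : Disjoint A B := Set.disjoint_left.2 fun ω h1 h2 => hBR h2 (hA h1)
  rw [← measureReal_union hd hB]
  exact measureReal_mono (union_subset hAW hBW)

end MeasAux

open MeasAux

theorem atomless_split [IsFiniteMeasure P] {G : Set Ω} (hG : ∀ b, b ⊆ G → ¬ IsAtom P b)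
    {S : Set Ω} (hS : MeasurableSet S) (hSG : S ⊆ G) :
    ∃ T, MeasurableSet T ∧ T ⊆ S ∧ P.real S / 3 ≤ P.real T ∧ P.real S / 3 ≤ P.real (S \ T) := by
  classical
  by_cases h0 : P S = 0
  · have e : P.real S = 0 := by simp [Measure.real, h0]
    refine ⟨∅, MeasurableSet.empty, empty_subset _, ?_, ?_⟩
    · rw [e]; simp
    · rw [sdiff_empty, e]; simp
  have hp : 0 < P.real S := real_pos h0
  have hc : 0 < P.real S / 3 := by positivity
  obtain ⟨D, hDC, hDc, hD⟩ := Measure.exists_ae_subset_biUnion_countable P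
    (C := {T | MeasurableSet T ∧ T ⊆ S ∧ P.real T ≤ P.real S / 3}) fun T hT => hT.1
  obtain ⟨f, hf⟩ := (hDc.insert (∅ : Set Ω)).exists_eq_range (insert_nonempty _ _)
  have hfC : ∀ k, MeasurableSet (f k) ∧ f k ⊆ S ∧ P.real (f k) ≤ P.real S / 3 := fun k => by
    have : f k ∈ insert (∅ : Set Ω) D := hf ▸ mem_range_self k
    rcases this with h | h
    · rw [h]
      exact ⟨MeasurableSet.empty, empty_subset _, by rw [measureReal_empty]; exact hc.le⟩
    · exact hDC h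
  have hrest : P (S \ ⋃ k, f k) = 0 := by
    by_contra h1
    have hm : MeasurableSet (S \ ⋃ k, f k) := hS.diff (MeasurableSet.iUnion fun k => (hfC k).1)
    obtain ⟨T, hT, hTS, hT0, hT1⟩ := small hG hm (sdiff_subset.trans hSG) h1 hc
    refine hT0 (measure_eq_zero_iff_ae_notMem.2 ?_)
    filter_upwards [hD T ⟨hT, hTS.trans sdiff_subset, hT1⟩] with ω h hω
    obtain ⟨t, ht, hωt⟩ := h hω
    obtain ⟨k, rfl⟩ : t ∈ range f := hf ▸ mem_insert_of_mem _ ht
    exact (hTS hω).2 (mem_iUnion.2 ⟨k, hωt⟩)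
  let U : ℕ → Set Ω := fun m => ⋃ k < m, f k
  have hUm : ∀ m, MeasurableSet (U m) := fun m =>
    MeasurableSet.iUnion fun k => MeasurableSet.iUnion fun _ => (hfC k).1
  have hUS : ∀ m, U m ⊆ S := fun m => iUnion₂_subset fun k _ => (hfC k).2.1
  have hUmono : Monotone U := fun m n hmn ω hω => by
    obtain ⟨k, hk, h⟩ := mem_iUnion₂.1 hω
    exact mem_iUnion₂.2 ⟨k, lt_of_lt_of_le hk hmn, h⟩
  have hex : ∃ m, P.real S / 3 < P.real (U m) := by
    refine exists_real_gt (s := S) hUmono ?_ (by linarith)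
    filter_upwards [measure_eq_zero_iff_ae_notMem.1 hrest] with ω h hω
    have : ω ∈ ⋃ k, f k := by
      by_contra h2
      exact h ⟨hω, h2⟩
    obtain ⟨k, hk⟩ := mem_iUnion.1 this
    exact ⟨k + 1, mem_iUnion₂.2 ⟨k, Nat.lt_succ_self k, hk⟩⟩
  have hspec := Nat.find_spec hex
  have hne : Nat.find hex ≠ 0 := by
    intro e
    rw [e] at hspec
    have e0 : U 0 = ∅ := by simp [U]
    rw [e0, measureReal_empty] at hspec
    linarith
  obtain ⟨k, hk⟩ := Nat.exists_eq_succ_of_ne_zero hne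
  have hmin : ¬ P.real S / 3 < P.real (U k) := Nat.find_min hex (by omega)
  rw [hk] at hspec
  have hsub : U k.succ ⊆ U k ∪ f k := fun ω hω => by
    obtain ⟨j, hj, h⟩ := mem_iUnion₂.1 hω
    rcases Nat.lt_succ_iff_lt_or_eq.1 hj with h1 | h1
    · exact Or.inl (mem_iUnion₂.2 ⟨j, h1, h⟩)
    · exact Or.inr (h1 ▸ h)
  have hle : P.real (U k.succ) ≤ P.real (U k) + P.real (f k) :=
    (measureReal_mono hsub).trans (measureReal_union_le _ _)
  refine ⟨U k.succ, hUm _, hUS _, hspec.le, ?_⟩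
  rw [measureReal_sdiff (hUS _) (hUm _)]
  have := (hfC k).2.2
  linarith [not_lt.1 hmin]

theorem MeasAux.split_finset [IsFiniteMeasure P] {G : Set Ω} (hG : ∀ b, b ⊆ G → ¬ IsAtom P b)
    (s : Finset (Set Ω)) : (∀ R ∈ s, MeasurableSet R) → ∀ S, MeasurableSet S → S ⊆ G →
      ∃ T, MeasurableSet T ∧ T ⊆ S ∧ P.real S / 3 ≤ P.real T ∧ P.real S / 3 ≤ P.real (S \ T) ∧
        ∀ R ∈ s, P.real S / 3 ≤ P.real (S ∩ symmDiff T R) := by
  classical
  induction s using Finset.induction_on with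
  | empty =>
    intro _ S hS hSG
    obtain ⟨T, h1, h2, h3, h4⟩ := atomless_split hG hS hSG
    exact ⟨T, h1, h2, h3, h4, by simp⟩
  | insert R s _ ih =>
    intro hs S hS hSG
    have hR : MeasurableSet R := hs R (Finset.mem_insert_self _ _)
    have hs' : ∀ R' ∈ s, MeasurableSet R' := fun R' h => hs R' (Finset.mem_insert_of_mem h)
    obtain ⟨A, hA, hAS, a1, a2, a3⟩ := ih hs' (S ∩ R) (hS.inter hR) (inter_subset_left.trans hSG)
    obtain ⟨B, hB, hBS, b1, b2, b3⟩ := ih hs' (S \ R) (hS.diff hR) (sdiff_subset.trans hSG)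
    have e : P.real (S ∩ R) + P.real (S \ R) = P.real S := measureReal_inter_add_sdiff hR
    have hAR : ∀ ω, ω ∈ A → ω ∈ S ∧ ω ∈ R := fun ω h => hAS h
    have hBR : ∀ ω, ω ∈ B → ω ∈ S ∧ ω ∉ R := fun ω h => hBS h
    refine ⟨A ∪ B, hA.union hB,
      union_subset (hAS.trans inter_subset_left) (hBS.trans sdiff_subset), ?_, ?_, ?_⟩
    · have := add_le (P := P) (R := R) (W := A ∪ B) hB (fun ω h => (hAR ω h).2)
        (fun ω h => (hBR ω h).2) subset_union_left subset_union_right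
      linarith
    · have := add_le (P := P) (R := R) (A := (S ∩ R) \ A) (W := S \ (A ∪ B))
        ((hS.diff hR).diff hB) (fun ω h => h.1.2) (fun ω h => h.1.2)
        (fun ω h => ⟨h.1.1, fun h' => h'.elim h.2 fun h'' => (hBR ω h'').2 h.1.2⟩)
        (fun ω h => ⟨h.1.1, fun h' => h'.elim (fun h'' => h.1.2 (hAR ω h'').2) h.2⟩)
      linarith
    · intro R' hR'
      rcases Finset.mem_insert.1 hR' with h | h
      · rw [h]
        have := add_le (P := P) (R := R) (A := (S ∩ R) \ A) (W := S ∩ symmDiff (A ∪ B) R)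
          hB (fun ω h => h.1.2) (fun ω h => (hBR ω h).2)
          (fun ω h => ⟨h.1.1, Set.mem_symmDiff.2 (Or.inr
            ⟨h.1.2, fun h' => h'.elim h.2 fun h'' => (hBR ω h'').2 h.1.2⟩)⟩)
          (fun ω h => ⟨(hBR ω h).1, Set.mem_symmDiff.2 (Or.inl ⟨Or.inr h, (hBR ω h).2⟩)⟩)
        linarith
      · have := add_le (P := P) (R := R) (A := (S ∩ R) ∩ symmDiff A R')
          (B := (S \ R) ∩ symmDiff B R') (W := S ∩ symmDiff (A ∪ B) R')
          ((hS.diff hR).inter (hB.symmDiff (hs' R' h))) (fun ω h => h.1.2) (fun ω h => h.1.2)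
          (fun ω h => ⟨h.1.1, Set.mem_symmDiff.2 ((Set.mem_symmDiff.1 h.2).imp
            (fun h' => ⟨Or.inl h'.1, h'.2⟩)
            fun h' => ⟨h'.1, fun h'' => h''.elim h'.2 fun h3 => (hBR ω h3).2 h.1.2⟩)⟩)
          (fun ω h => ⟨h.1.1, Set.mem_symmDiff.2 ((Set.mem_symmDiff.1 h.2).imp
            (fun h' => ⟨Or.inr h'.1, h'.2⟩)
            fun h' => ⟨h'.1, fun h'' => h''.elim (fun h3 => h.1.2 (hAR ω h3).2) h'.2⟩)⟩)
        have a4 := a3 R' h
        have b4 := b3 R' h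
        linarith

theorem atomless_labels [IsFiniteMeasure P] {G : Set Ω} (hG : ∀ b, b ⊆ G → ¬ IsAtom P b)
    {B : Set Ω} (hB : MeasurableSet B) (hBG : B ⊆ G) :
    ∃ R : ℕ → Set Ω, (∀ j, MeasurableSet (R j)) ∧
      ∀ i j, i ≠ j → P.real B / 3 ≤ P.real (B ∩ symmDiff (R i) (R j)) := by
  obtain ⟨R, hR, h⟩ := exists_seq_of_forall_finset_exists (α := Set Ω) MeasurableSet
    (fun x y => P.real B / 3 ≤ P.real (B ∩ symmDiff y x)) fun s hs => by
      obtain ⟨T, h1, -, -, -, h2⟩ := split_finset hG s hs B hB hBG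
      exact ⟨T, h1, h2⟩
  refine ⟨R, hR, fun i j hij => ?_⟩
  rcases lt_or_gt_of_ne hij with h1 | h1
  · rw [symmDiff_comm]
    exact h i j h1
  · exact h j i h1

theorem finite_atoms
    (h : ¬ ∃ a : ℕ → Set Ω, (∀ n, IsAtom P (a n)) ∧ Pairwise fun m n => Disjoint (a m) (a n)) :
    ∃ s : Finset (Set Ω), (∀ a ∈ s, IsAtom P a) ∧
      (∀ a ∈ s, ∀ b ∈ s, a ≠ b → Disjoint a b) ∧ ∀ b, b ⊆ (⋃ a ∈ s, a)ᶜ → ¬ IsAtom P b := by
  obtain ⟨M, hM⟩ := zorn_subset {A : Set (Set Ω) | (∀ a ∈ A, IsAtom P a) ∧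
      ∀ a ∈ A, ∀ b ∈ A, a ≠ b → Disjoint a b} fun c hc hch => by
    refine ⟨⋃₀ c, ⟨?_, ?_⟩, fun t ht => subset_sUnion_of_mem ht⟩
    · rintro a ⟨t, ht, ha⟩
      exact (hc ht).1 a ha
    · rintro a ⟨t, ht, ha⟩ b ⟨u, hu, hb⟩ hab
      rcases hch.total ht hu with h1 | h1
      · exact (hc hu).2 a (h1 ha) b hb hab
      · exact (hc ht).2 a ha b (h1 hb) hab
  have hfin : M.Finite := by
    by_contra hinf
    have f := Set.Infinite.natEmbedding M hinf
    refine h ⟨fun n => f n, fun n => hM.prop.1 _ (f n).2, fun m n hmn => ?_⟩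
    exact hM.prop.2 _ (f m).2 _ (f n).2 fun e => hmn (f.injective (Subtype.ext e))
  refine ⟨hfin.toFinset, fun a ha => hM.prop.1 a (hfin.mem_toFinset.1 ha),
    fun a ha b hb => hM.prop.2 a (hfin.mem_toFinset.1 ha) b (hfin.mem_toFinset.1 hb),
    fun b hb hat => ?_⟩
  have hdis : ∀ a ∈ M, Disjoint a b := fun a ha => Set.disjoint_left.2 fun ω h1 h2 =>
    hb h2 (mem_iUnion₂.2 ⟨a, hfin.mem_toFinset.2 ha, h1⟩)
  have hbM : b ∈ M := by
    refine hM.le_of_ge (y := insert b M) ⟨?_, ?_⟩ (subset_insert b M) (mem_insert b M)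
    · rintro a (rfl | ha)
      · exact hat
      · exact hM.prop.1 a ha
    · rintro a (rfl | ha) a' (rfl | ha') hne
      · exact absurd rfl hne
      · exact (hdis a' ha').symm
      · exact hdis a ha
      · exact hM.prop.2 a ha a' ha' hne
  have hb0 : b = ∅ := disjoint_self.1 (hdis b hbM)
  exact hat.2.1 (by rw [hb0]; exact measure_empty)

end Pool.Agent.Lib.MP_4f3acd_an.RN
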