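import Pool.Agent.Lib.MP_4f3acd_an.RNCore
import Pool.Agent.Lib.MP_4f3acd_an.RNMeasure

set_option autoImplicit false

namespace Pool.Agent.Lib.MP_4f3acd_an.RN

open MeasureTheory Filter Topology Set

variable {Ω : Type} [MeasurableSpace Ω] {P : Measure Ω} {𝕜 : Type} [RCLike 𝕜] {E E₁ E₂ : Type}
  [AddCommGroup E] [AddCommGroup E₁] [AddCommGroup E₂]
  {M₁ : RNMod P 𝕜 E₁} {M₂ : RNMod P 𝕜 E₂} {X : Set E₁} {F : E₁ → Set E₂}

theorem rich_of_atomless [IsProbabilityMeasure P] (h : Good M₁ M₂ X F) {x₀ : E₁} (hx : x₀ ∈ X)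
    {G : Set Ω} (hG : ∀ b, b ⊆ G → ¬ IsAtom P b) {B : Set Ω} (hB : MeasurableSet B) (hBG : B ⊆ G)
    (hB0 : 0 < P.real B) {y₁ y₂ : E₂} (h₁ : y₁ ∈ F x₀) (h₂ : y₂ ∈ F x₀) {ε : ℝ} (hε : 0 < ε)
    (hd : ∀ ω ∈ B, 2 * ε ≤ M₂.d y₁ y₂ ω) : Rich M₂ (F x₀) B := by
  obtain ⟨R, hR, hsep⟩ := atomless_labels hG hB hBG
  choose b hb hb1 hb2 using fun j => h.twoA hx (hR j) h₁ h₂
  refine ⟨b, hb, fun y hy => ⟨ε, P.real B / 6, hε, by positivity, ?_⟩⟩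
  have key : ∀ i j, i ≠ j → P.real B / 3 ≤ P.real (B ∩ {ω | ε ≤ M₂.d (b i) y ω}) +
      P.real (B ∩ {ω | ε ≤ M₂.d (b j) y ω}) := by
    intro i j hij
    refine (hsep i j hij).trans (real_le_add_ae ?_)
    filter_upwards [(hb1 i).left y, (hb2 i).left y, (hb1 j).left y, (hb2 j).left y,
      M₂.d_tri y₁ y y₂, M₂.d_symm y y₂] with ω a1 a2 a3 a4 a5 a6 hω
    have a7 := hd ω hω.1
    by_cases c1 : ε ≤ M₂.d (b i) y ω
    · exact Or.inl ⟨hω.1, c1⟩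
    refine Or.inr ⟨hω.1, ?_⟩
    change ε ≤ M₂.d (b j) y ω
    rcases hω.2 with ⟨hi, hj⟩ | ⟨hj, hi⟩
    · rw [a1 hi] at c1; rw [a4 hj]; linarith
    · rw [a2 hi] at c1; rw [a3 hj]; linarith
  by_cases hex : ∃ i, P.real (B ∩ {ω | ε ≤ M₂.d (b i) y ω}) < P.real B / 6
  · obtain ⟨i, hi⟩ := hex
    filter_upwards [eventually_ne_atTop i] with j hj
    linarith [key j i hj]
  · push Not at hex
    exact Eventually.of_forall hex

theorem two_rich [IsProbabilityMeasure P] (h : Good M₁ M₂ X F) {x₀ : E₁} (hx : x₀ ∈ X)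
    {G : Set Ω} (hGm : MeasurableSet G) (hG : ∀ b, b ⊆ G → ¬ IsAtom P b) {y₁ y₂ : E₂}
    (h₁ : y₁ ∈ F x₀) (h₂ : y₂ ∈ F x₀) (hn : ¬ M₂.Ag G y₁ y₂) :
    ∃ B₁ B₂, MeasurableSet B₁ ∧ MeasurableSet B₂ ∧ Disjoint B₁ B₂ ∧ Rich M₂ (F x₀) B₁ ∧
      Rich M₂ (F x₀) B₂ := by
  have h0 : P (G ∩ {ω | 0 < M₂.d y₁ y₂ ω}) ≠ 0 := fun h0 => hn <| by
    filter_upwards [measure_eq_zero_iff_ae_notMem.1 h0, M₂.d_nonneg y₁ y₂] with ω a1 a2 a3
    exact le_antisymm (not_lt.1 fun a4 => a1 ⟨a3, a4⟩) a2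
  obtain ⟨m, hm⟩ := exists_real_gt (P := P) (s := G ∩ {ω | 0 < M₂.d y₁ y₂ ω})
    (t := fun m : ℕ => G ∩ {ω | 1 / ((m : ℝ) + 1) ≤ M₂.d y₁ y₂ ω})
    (fun a b hab ω hω => ⟨hω.1, le_trans (Nat.one_div_le_one_div (α := ℝ) hab) hω.2⟩)
    (Eventually.of_forall fun ω hω => by
      obtain ⟨m, hm⟩ := exists_nat_one_div_lt (K := ℝ) hω.2
      exact ⟨m, hω.1, hm.le⟩) (real_pos h0)
  set S := G ∩ {ω | 1 / ((m : ℝ) + 1) ≤ M₂.d y₁ y₂ ω} with hS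
  have hSm : MeasurableSet S := hGm.inter (measurableSet_le measurable_const (M₂.d_meas _ _))
  obtain ⟨T, hT, hTS, hT1, hT2⟩ := atomless_split hG hSm inter_subset_left
  have hε : (0 : ℝ) < 1 / ((m : ℝ) + 1) / 2 := by positivity
  have hd : ∀ ω ∈ S, 2 * (1 / ((m : ℝ) + 1) / 2) ≤ M₂.d y₁ y₂ ω := fun ω hω => by
    have : 1 / ((m : ℝ) + 1) ≤ M₂.d y₁ y₂ ω := hω.2
    linarith
  exact ⟨T, S \ T, hT, hSm.diff hT, disjoint_sdiff_right,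
    rich_of_atomless h hx hG hT (hTS.trans inter_subset_left) (by linarith) h₁ h₂ hε
      fun ω hω => hd ω (hTS hω),
    rich_of_atomless h hx hG (hSm.diff hT) (sdiff_subset.trans inter_subset_left) (by linarith)
      h₁ h₂ hε fun ω hω => hd ω hω.1⟩

/-- The conclusion of upper semicontinuity at a point for one open set. -/
def Inside (M₁ : RNMod P 𝕜 E₁) (X : Set E₁) (F : E₁ → Set E₂) (x₀ : E₁) (O : Set E₂) : Prop :=
  ∃ δ : Ω → ℝ, Measurable δ ∧ (∀ ω, 0 < δ ω) ∧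
    ∀ x ∈ X, (∀ᵐ ω ∂P, M₁.d x x₀ ω < δ ω) → F x ⊆ O

theorem inside_of_two [IsProbabilityMeasure P] (h : Good M₁ M₂ X F) {x₀ : E₁} (hx : x₀ ∈ X)
    (hr : RSat M₁ M₂ X F x₀) {B₁ B₂ : Set Ω} (m₁ : MeasurableSet B₁) (m₂ : MeasurableSet B₂)
    (hd : Disjoint B₁ B₂) (r₁ : Rich M₂ (F x₀) B₁) (r₂ : Rich M₂ (F x₀) B₂) :
    Inside M₁ X F x₀ (F x₀) := by
  obtain ⟨δ₁, a1, a2, a3⟩ := label h hx hr m₁ r₁
  obtain ⟨δ₂, b1, b2, b3⟩ := label h hx hr m₂ r₂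
  refine ⟨fun ω => min (δ₁ ω) (δ₂ ω), a1.min b1, fun ω => lt_min (a2 ω) (b2 ω),
    fun x hxX hxd z hz => ?_⟩
  obtain ⟨y₁, hy₁, c1⟩ := a3 x hxX (hxd.mono fun ω h => h.trans_le (min_le_left _ _)) z hz
  obtain ⟨y₂, hy₂, c2⟩ := b3 x hxX (hxd.mono fun ω h => h.trans_le (min_le_right _ _)) z hz
  obtain ⟨y, hy, d1, d2⟩ := h.twoA hx m₁ hy₂ hy₁
  have : z = y := by
    refine M₂.eq_of_d ?_
    filter_upwards [c1, c2, d1.right z, d2.right z, M₂.d_nonneg z y] with ω e1 e2 e3 e4 e5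
    refine le_antisymm ?_ e5
    by_cases hω : ω ∈ B₁
    · rw [e3 hω]; exact e2 fun h2 => Set.disjoint_left.1 hd hω h2
    · rw [e4 hω]; exact e1 hω
  rw [this]; exact hy

theorem finite_cover [IsProbabilityMeasure P] {M : RNMod P 𝕜 E} {A : Set E} {a : Set Ω}
    (ha : IsAtom P a) (hR : ¬ Rich M A a) (r : E → ℝ) (hr : ∀ y ∈ A, 0 < r y) :
    ∃ t : Finset E, (∀ y ∈ t, y ∈ A) ∧ ∀ k ∈ A, ∃ y ∈ t, ∀ᵐ ω ∂P, ω ∈ a → M.d k y ω < r y := by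
  choose v hv using fun x y : E => atom_const ha (M.d_meas x y)
  let _ : PseudoMetricSpace E :=
    { dist := v
      dist_self := fun x => of_ae_on ha.2.1 <| by
        filter_upwards [hv x x, M.d_self x] with ω h1 h2 h3
        exact (h1 h3).symm.trans h2
      dist_comm := fun x y => of_ae_on ha.2.1 <| by
        filter_upwards [hv x y, hv y x, M.d_symm x y] with ω h1 h2 h3 h4
        exact (h1 h4).symm.trans (h3.trans (h2 h4))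
      dist_triangle := fun x y z => of_ae_on ha.2.1 <| by
        filter_upwards [hv x z, hv x y, hv y z, M.d_tri x y z] with ω h1 h2 h3 h4 h5
        rw [← h1 h5, ← h2 h5, ← h3 h5]; exact h4 }
  have hK : IsCompact A := by
    refine IsSeqCompact.isCompact fun b hb => ?_
    have h1 : ∃ y ∈ A, ∀ ε l : ℝ, 0 < ε → 0 < l →
        ∃ᶠ j in atTop, P.real (a ∩ {ω | ε ≤ M.d (b j) y ω}) < l := by
      by_contra h2
      push Not at h2
      exact hR ⟨b, hb, fun y hy => by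
        obtain ⟨ε, l, h3, h4, h5⟩ := h2 y hy
        exact ⟨ε, l, h3, h4, h5⟩⟩
    obtain ⟨y, hy, h2⟩ := h1
    refine ⟨y, hy, MapClusterPt.tendsto_subseq (mapClusterPt_iff_frequently.2 fun s hs => ?_)⟩
    obtain ⟨ε, hε, hs⟩ := Metric.mem_nhds_iff.1 hs
    refine (h2 ε _ hε (real_pos ha.2.1)).mono fun j hj => hs ?_
    change v (b j) y < ε
    by_contra h3
    refine absurd (real_mono_ae ?_) (not_le.2 hj)
    filter_upwards [hv (b j) y] with ω h4 h5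
    refine ⟨h5, ?_⟩
    change ε ≤ M.d (b j) y ω
    rw [h4 h5]; exact not_lt.1 h3
  obtain ⟨t, ht, hcov⟩ := hK.elim_nhds_subcover (fun y => Metric.ball y (r y))
    fun y hy => Metric.ball_mem_nhds y (hr y hy)
  refine ⟨t, ht, fun k hk => ?_⟩
  obtain ⟨y, hy, h1⟩ := mem_iUnion₂.1 (hcov hk)
  refine ⟨y, hy, ?_⟩
  filter_upwards [hv k y] with ω h2 h3
  rw [h2 h3]; exact h1

theorem exists_min_finset {ι : Type} (t : Finset ι) (e : ι → Ω → ℝ)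
    (he : ∀ i ∈ t, Measurable (e i) ∧ ∀ᵐ ω ∂P, 0 < e i ω) :
    ∃ ε : Ω → ℝ, Measurable ε ∧ (∀ᵐ ω ∂P, 0 < ε ω) ∧ ∀ i ∈ t, ∀ ω, ε ω ≤ e i ω := by
  classical
  induction t using Finset.induction_on with
  | empty => exact ⟨fun _ => 1, measurable_const, Eventually.of_forall fun _ => one_pos, by simp⟩
  | insert i t hi ih =>
    obtain ⟨ε, h1, h2, h3⟩ := ih fun j hj => he j (Finset.mem_insert_of_mem hj)
    obtain ⟨h4, h5⟩ := he i (Finset.mem_insert_self _ _)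
    refine ⟨fun ω => min (ε ω) (e i ω), h1.min h4, ?_, fun j hj ω => ?_⟩
    · filter_upwards [h2, h5] with ω h6 h7 using lt_min h6 h7
    · rcases Finset.mem_insert.1 hj with rfl | hj
      · exact min_le_right _ _
      · exact (min_le_left _ _).trans (h3 j hj ω)

theorem tube [IsProbabilityMeasure P] (h : Good M₁ M₂ X F) {x₀ : E₁} (hx : x₀ ∈ X) {O : Set E₂}
    (hO : OpenC M₂ O) (hAO : F x₀ ⊆ O) (s : Finset (Set Ω))
    (hs : ∀ a ∈ s, IsAtom P a ∧ ¬ Rich M₂ (F x₀) a) :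
    ∀ y ∈ F x₀, ∃ ε : Ω → ℝ, Measurable ε ∧ (∀ᵐ ω ∂P, 0 < ε ω) ∧ ∀ k ∈ F x₀,
      M₂.Ag (⋃ a ∈ s, a)ᶜ k y → ∀ w, (∀ᵐ ω ∂P, M₂.d w k ω < ε ω) → w ∈ O := by
  classical
  induction s using Finset.induction_on with
  | empty =>
    intro y hy
    obtain ⟨ε, h1, h2⟩ := hO y (hAO hy)
    refine ⟨ε, ε.measurable, h1, fun k _ hk w hw => h2 w ?_⟩
    filter_upwards [hk.right w, hw] with ω h3 h4
    rw [h3 (by simp)] at h4
    exact h4
  | insert a s ha ih =>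
    intro y hy
    have ih' := ih fun b hb => hs b (Finset.mem_insert_of_mem hb)
    obtain ⟨hat, hnr⟩ := hs a (Finset.mem_insert_self _ _)
    choose! g hg hg1 hg2 using fun k (hk : k ∈ F x₀) => h.twoA hx hat.1 hk hy
    choose! e he1 he2 he3 using fun k (hk : k ∈ F x₀) => ih' (g k) (hg k hk)
    choose! r hr using fun k (hk : k ∈ F x₀) => atom_const hat (he1 k hk)
    have hr0 : ∀ k ∈ F x₀, 0 < r k / 2 := fun k hk => half_pos <| of_ae_on hat.2.1 <| by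
      filter_upwards [hr k hk, he2 k hk] with ω h1 h2 h3
      rw [← h1 h3]; exact h2
    obtain ⟨t, ht, hcov⟩ := finite_cover hat hnr (fun k => r k / 2) hr0
    obtain ⟨ε, h1, h2, h3⟩ := exists_min_finset (P := P) t (fun k ω => e k ω / 2) fun k hk =>
      ⟨(he1 k (ht k hk)).div_const 2, (he2 k (ht k hk)).mono fun ω h => half_pos h⟩
    refine ⟨ε, h1, h2, fun k hk hky w hw => ?_⟩
    obtain ⟨k₀, hk₀, h4⟩ := hcov k hk
    have hk₀A := ht k₀ hk₀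
    obtain ⟨k', hk', h5, h6⟩ := h.twoA hx hat.1 hk₀A hk
    refine he3 k₀ hk₀A k' hk' ?_ w ?_
    · filter_upwards [h5.left (g k₀), h6.left (g k₀), (hg1 k₀ hk₀A).right k₀,
        (hg2 k₀ hk₀A).right k, M₂.d_self k₀, hky] with ω c1 c2 c3 c4 c5 c6 c7
      by_cases hω : ω ∈ a
      · rw [c1 hω, c3 hω, c5]
      · rw [c2 hω, c4 hω]
        refine c6 ?_
        rw [Finset.set_biUnion_insert]
        exact fun c8 => c8.elim hω c7
    · filter_upwards [h5.right w, h6.right w, hw, h4, M₂.d_tri w k k₀, hr k₀ hk₀A,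
        he2 k₀ hk₀A] with ω c1 c2 c3 c4 c5 c6 c7
      have c8 := h3 k₀ hk₀ ω
      by_cases hω : ω ∈ a
      · have c9 := c4 hω
        rw [← c6 hω] at c9
        rw [c1 hω]; linarith
      · rw [c2 hω]; linarith

theorem inside_of_finite [IsProbabilityMeasure P] (h : Good M₁ M₂ X F) {x₀ : E₁} (hx : x₀ ∈ X)
    (hr : RSat M₁ M₂ X F x₀) {O : Set E₂} (hO : OpenC M₂ O) (hAO : F x₀ ⊆ O)
    (s : Finset (Set Ω)) (hs : ∀ a ∈ s, IsAtom P a)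
    (hdis : ∀ a ∈ s, ∀ b ∈ s, a ≠ b → Disjoint a b)
    (hG : ∀ b, b ⊆ (⋃ a ∈ s, a)ᶜ → ¬ IsAtom P b) : Inside M₁ X F x₀ O := by
  classical
  by_cases htwo : ∃ B₁ B₂, MeasurableSet B₁ ∧ MeasurableSet B₂ ∧ Disjoint B₁ B₂ ∧
      Rich M₂ (F x₀) B₁ ∧ Rich M₂ (F x₀) B₂
  · obtain ⟨B₁, B₂, m₁, m₂, hd, r₁, r₂⟩ := htwo
    obtain ⟨δ, h1, h2, h3⟩ := inside_of_two h hx hr m₁ m₂ hd r₁ r₂
    exact ⟨δ, h1, h2, fun x hxX hxd => (h3 x hxX hxd).trans hAO⟩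
  have hGm : MeasurableSet (⋃ a ∈ s, a)ᶜ :=
    (Finset.measurableSet_biUnion _ fun a ha => (hs a ha).1).compl
  have hsing : ∀ y₁ ∈ F x₀, ∀ y₂ ∈ F x₀, M₂.Ag (⋃ a ∈ s, a)ᶜ y₁ y₂ := fun y₁ h₁ y₂ h₂ => by
    by_contra hn
    exact htwo (two_rich h hx hGm hG h₁ h₂ hn)
  by_cases hone : ∃ a ∈ s, Rich M₂ (F x₀) a
  swap
  · push Not at hone
    obtain ⟨y₀, hy₀⟩ := h.ne _ hx
    obtain ⟨ε, h1, h2, h3⟩ := tube h hx hO hAO s (fun a ha => ⟨hs a ha, hone a ha⟩) y₀ hy₀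
    obtain ⟨δ, h4, h5, h6⟩ := excess h hx hr (h1.div_const 2) (h2.mono fun ω h => half_pos h)
    refine ⟨δ, h4, h5, fun x hxX hxd z hz => ?_⟩
    obtain ⟨y, hy, h7⟩ := h6 x hxX hxd z hz
    refine h3 y hy (hsing y hy y₀ hy₀) z ?_
    filter_upwards [h7, h2] with ω h8 h9
    linarith [h8 (mem_univ ω)]
  obtain ⟨a, ha, hRa⟩ := hone
  have hat := hs a ha
  obtain ⟨δ, d1, d2, d3⟩ := label h hx hr hat.1 hRa
  choose! e he1 he2 he3 using tube h hx hO hAO (s.erase a) fun b hb =>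
    ⟨hs b (Finset.mem_of_mem_erase hb), fun hRb => htwo ⟨a, b, hat.1,
      (hs b (Finset.mem_of_mem_erase hb)).1,
      hdis a ha b (Finset.mem_of_mem_erase hb) (Finset.ne_of_mem_erase hb).symm, hRa, hRb⟩⟩
  let C : Set E₂ := {w | ∀ y ∈ F x₀, ∀ᵐ ω ∂P, ω ∈ a → e y ω ≤ M₂.d w y ω}
  have hn : ∃ n : ℕ, ∀ x ∈ X, (∀ᵐ ω ∂P, M₁.d x x₀ ω ≤ 1 / ((n : ℝ) + 1)) → ∀ z ∈ F x, z ∉ C := by
    by_contra hn
    push Not at hn
    choose x hxX hxd z hz hzC using hn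
    obtain ⟨N, hN, y, hy, hs', hC⟩ := hr x hxX hxd C fun y hy => by
      obtain ⟨r, hr'⟩ := atom_const hat (he1 y hy)
      have hr0 : 0 < r := of_ae_on hat.2.1 <| by
        filter_upwards [hr', he2 y hy] with ω h1 h2 h3
        rw [← h1 h3]; exact h2
      refine ⟨r, _, hr0, real_pos hat.2.1, fun w hw => real_mono_ae ?_⟩
      filter_upwards [hw y hy, hr'] with ω h1 h2 h3
      rw [← h2 h3]; exact h1 h3
    obtain ⟨w, hw, hsw⟩ := h.up N hN x hxX y hy hs' z hz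
    refine hC w hw fun y' hy' => ?_
    filter_upwards [hsw.left y', ae_all_iff.2 fun n => hzC n y' hy'] with ω h1 h2 h3
    rw [h1]; exact h2 _ h3
  obtain ⟨n, hn⟩ := hn
  refine ⟨fun ω => min (δ ω) (1 / ((n : ℝ) + 1)), d1.min measurable_const,
    fun ω => lt_min (d2 ω) (by positivity), fun x hxX hxd z hz => ?_⟩
  obtain ⟨y', hy', h1⟩ := d3 x hxX (hxd.mono fun ω h => h.trans_le (min_le_left _ _)) z hz
  have h2 := hn x hxX (hxd.mono fun ω h => h.le.trans (min_le_right _ _)) z hz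
  have h3 : ∃ y ∈ F x₀, ∀ᵐ ω ∂P, ω ∈ a → M₂.d z y ω < e y ω := by
    by_contra h4
    push Not at h4
    refine h2 fun y hy => ?_
    obtain ⟨c, hc⟩ := atom_const hat ((M₂.d_meas z y).sub (he1 y hy))
    have h5 : ¬ c < 0 := fun h5 => absurd (h4 y hy) <| not_frequently.2 <| by
      filter_upwards [hc] with ω h6 h7
      have : M₂.d z y ω - e y ω = c := h6 h7.1
      linarith [h7.2]
    filter_upwards [hc] with ω h6 h7
    have : M₂.d z y ω - e y ω = c := h6 h7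
    linarith
  obtain ⟨y, hy, h4⟩ := h3
  obtain ⟨k, hk, h5, h6⟩ := h.twoA hx hat.1 hy hy'
  refine he3 y hy k hk ?_ z ?_
  · filter_upwards [h5, h6.left y, hsing y' hy' y hy] with ω c1 c2 c3 c4
    by_cases hω : ω ∈ a
    · exact c1 hω
    · rw [c2 hω]
      refine c3 fun c5 => ?_
      obtain ⟨b, hb, c6⟩ := mem_iUnion₂.1 c5
      exact c4 (mem_iUnion₂.2 ⟨b, Finset.mem_erase.2 ⟨fun c7 => hω (c7 ▸ c6), hb⟩, c6⟩)
  · filter_upwards [h5.right z, h6.right z, h4, h1, he2 y hy] with ω c1 c2 c3 c4 c5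
    by_cases hω : ω ∈ a
    · rw [c1 hω]; exact c3 hω
    · rw [c2 hω]; exact (c4 hω).trans_lt c5

theorem uscC_of_uscRS [IsProbabilityMeasure P] (h : Good M₁ M₂ X F)
    (hfin : ¬ ∃ a : ℕ → Set Ω, (∀ n, IsAtom P (a n)) ∧ Pairwise fun m n => Disjoint (a m) (a n))
    (hr : UscRS M₁ M₂ X F) : UscC M₁ M₂ X F := by
  obtain ⟨s, hs, hdis, hG⟩ := finite_atoms hfin
  rintro x₀ hx U ⟨O, hO, hAO, hOU⟩
  obtain ⟨δ, h1, h2, h3⟩ := inside_of_finite h hx (hr.rsat hx) hO hAO s hs hdis hG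
  refine ⟨{x | ∀ᵐ ω ∂P, M₁.d x x₀ ω < δ ω}, ⟨_, fun x hx' => ?_, ?_, subset_rfl⟩,
    fun x hx' => (h3 x hx'.2 hx'.1).trans hOU⟩
  · have hm : AEStronglyMeasurable (fun ω => δ ω - M₁.d x x₀ ω) P :=
      (h1.sub (M₁.d_meas x x₀)).aestronglyMeasurable
    refine ⟨AEEqFun.mk _ hm, ?_, fun y hy => ?_⟩
    · filter_upwards [AEEqFun.coeFn_mk _ hm, hx'] with ω c1 c2
      rw [c1]; linarith
    · filter_upwards [AEEqFun.coeFn_mk _ hm, hy, M₁.d_tri y x x₀] with ω c1 c2 c3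
      rw [c1] at c2
      have : M₁.d y x ω < δ ω - M₁.d x x₀ ω := c2
      linarith
  · refine singleton_subset_iff.2 ?_
    filter_upwards [M₁.d_self x₀] with ω c1
    rw [c1]; exact h2 ω

end Pool.Agent.Lib.MP_4f3acd_an.RN
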