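import Pool.Agent.Lib.MP_4f3acd_an.RNDefs

set_option autoImplicit false

namespace Pool.Agent.Lib.MP_4f3acd_an.RN

open MeasureTheory Filter Topology Set

variable {Ω : Type} [MeasurableSpace Ω] {P : Measure Ω} {𝕜 : Type} [RCLike 𝕜] {E E₁ E₂ : Type}
  [AddCommGroup E] [AddCommGroup E₁] [AddCommGroup E₂]

namespace RNMod
variable (M : RNMod P 𝕜 E)

theorem smul_sub' (ξ : Ω →ₘ[P] 𝕜) (x y : E) : M.smul ξ (x - y) = M.smul ξ x - M.smul ξ y := by
  have h := M.smul_add ξ (x - y) y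
  rw [sub_add_cancel] at h
  rw [h]; abel

theorem zero_smul' (x : E) : M.smul 0 x = 0 := by
  have h := M.add_smul 0 0 x
  rw [add_zero] at h
  exact left_eq_add.1 h

theorem neg_one_smul' (x : E) : M.smul (-1) x = -x := by
  have h := M.add_smul 1 (-1) x
  rw [add_neg_cancel, M.zero_smul', M.one_smul] at h
  exact (neg_eq_of_add_eq_zero_right h.symm).symm

theorem nrm_zero : ∀ᵐ ω ∂P, M.nrm 0 ω = 0 := by
  have h := M.nrm_smul 0 0
  rw [M.zero_smul'] at h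
  filter_upwards [h, AEEqFun.coeFn_zero (α := Ω) (μ := P) (β := 𝕜)] with ω h1 h2
  rw [h1, h2]; simp

theorem nrm_neg (x : E) : ∀ᵐ ω ∂P, M.nrm (-x) ω = M.nrm x ω := by
  have h := M.nrm_smul (-1) x
  rw [M.neg_one_smul'] at h
  filter_upwards [h, AEEqFun.coeFn_neg (1 : Ω →ₘ[P] 𝕜),
    AEEqFun.coeFn_one (α := Ω) (μ := P) (β := 𝕜)] with ω h1 h2 h3
  rw [h1, h2, Pi.neg_apply, h3]; simp

/-- The random distance. -/
noncomputable def d (x y : E) : Ω → ℝ := M.nrm (x - y)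

theorem d_meas (x y : E) : Measurable (M.d x y) := (M.nrm (x - y)).measurable

theorem d_nonneg (x y : E) : ∀ᵐ ω ∂P, 0 ≤ M.d x y ω := M.nrm_nonneg _

theorem d_self (x : E) : ∀ᵐ ω ∂P, M.d x x ω = 0 := by
  unfold d; rw [sub_self]; exact M.nrm_zero

theorem d_symm (x y : E) : ∀ᵐ ω ∂P, M.d x y ω = M.d y x ω := by
  unfold d; rw [← neg_sub y x]; exact M.nrm_neg _

theorem d_tri (x y z : E) : ∀ᵐ ω ∂P, M.d x z ω ≤ M.d x y ω + M.d y z ω := by
  unfold d; rw [← sub_add_sub_cancel x y z]; exact M.nrm_add _ _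

theorem eq_of_d {x y : E} (h : ∀ᵐ ω ∂P, M.d x y ω = 0) : x = y := by
  refine sub_eq_zero.1 (M.eq_zero _ (AEEqFun.ext ?_))
  filter_upwards [h, AEEqFun.coeFn_zero (α := Ω) (μ := P) (β := ℝ)] with ω h1 h2
  rw [h2]; exact h1

theorem d_congr (x y z : E) : ∀ᵐ ω ∂P, M.d x y ω = 0 → M.d x z ω = M.d y z ω := by
  filter_upwards [M.d_tri x y z, M.d_tri y x z, M.d_symm x y] with ω h1 h2 h3 h
  linarith

theorem d_congr' (x y z : E) : ∀ᵐ ω ∂P, M.d x y ω = 0 → M.d z x ω = M.d z y ω := by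
  filter_upwards [M.d_congr x y z, M.d_symm x z, M.d_symm y z] with ω h1 h2 h3 h
  rw [← h2, ← h3, h1 h]

/-- Agreement on a set. -/
def Ag (a : Set Ω) (x y : E) : Prop := ∀ᵐ ω ∂P, ω ∈ a → M.d x y ω = 0

/-- The element y is the selection of the x k along the random index N. -/
def Sel (N : Ω → ℕ) (x : ℕ → E) (y : E) : Prop := ∀ᵐ ω ∂P, M.d y (x (N ω)) ω = 0

variable {M}

theorem Ag.left {a : Set Ω} {x y : E} (h : M.Ag a x y) (z : E) :
    ∀ᵐ ω ∂P, ω ∈ a → M.d x z ω = M.d y z ω := by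
  filter_upwards [h, M.d_congr x y z] with ω h1 h2 ha using h2 (h1 ha)

theorem Ag.right {a : Set Ω} {x y : E} (h : M.Ag a x y) (z : E) :
    ∀ᵐ ω ∂P, ω ∈ a → M.d z x ω = M.d z y ω := by
  filter_upwards [h, M.d_congr' x y z] with ω h1 h2 ha using h2 (h1 ha)

theorem Sel.left {N : Ω → ℕ} {x : ℕ → E} {y : E} (h : M.Sel N x y) (z : E) :
    ∀ᵐ ω ∂P, M.d y z ω = M.d (x (N ω)) z ω := by
  filter_upwards [h, ae_all_iff.2 fun k => M.d_congr y (x k) z] with ω h1 h2 using h2 _ h1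

theorem Sel.right {N : Ω → ℕ} {x : ℕ → E} {y : E} (h : M.Sel N x y) (z : E) :
    ∀ᵐ ω ∂P, M.d z y ω = M.d z (x (N ω)) ω := by
  filter_upwards [h, ae_all_iff.2 fun k => M.d_congr' y (x k) z] with ω h1 h2 using h2 _ h1

theorem glue_iff {a : ℕ → Set Ω} (ha : ∀ k, MeasurableSet (a k)) {x : ℕ → E} {y : E} :
    Glue M a x y ↔ ∀ k, M.Ag (a k) y (x k) := by
  constructor
  · intro h k
    have hm : AEStronglyMeasurable ((a k).indicator fun _ => (1 : 𝕜)) P :=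
      (stronglyMeasurable_const.indicator (ha k)).aestronglyMeasurable
    have h1 := h k (AEEqFun.mk _ hm) (AEEqFun.coeFn_mk _ hm)
    have h2 := M.nrm_smul (AEEqFun.mk _ hm) (y - x k)
    rw [M.smul_sub', h1, sub_self] at h2
    filter_upwards [h2, M.nrm_zero, AEEqFun.coeFn_mk _ hm] with ω h3 h4 h5 hω
    rw [h4, h5, indicator_of_mem hω] at h3
    simpa [d] using h3.symm
  · intro h k ξ hξ
    refine sub_eq_zero.1 ?_
    rw [← M.smul_sub']
    refine M.eq_zero _ (AEEqFun.ext ?_)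
    filter_upwards [M.nrm_smul ξ (y - x k), hξ, h k,
      AEEqFun.coeFn_zero (α := Ω) (μ := P) (β := ℝ)] with ω h1 h2 h3 h4
    rw [h1, h4, h2]
    by_cases hω : ω ∈ a k
    · have := h3 hω
      unfold d at this
      rw [this]; simp
    · rw [indicator_of_notMem hω]; simp

theorem sel_iff {N : Ω → ℕ} {x : ℕ → E} {y : E} :
    M.Sel N x y ↔ ∀ k, M.Ag {ω | N ω = k} y (x k) := by
  constructor
  · intro h k
    filter_upwards [h] with ω h1 h2
    rw [← show N ω = k from h2]; exact h1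
  · intro h
    filter_upwards [ae_all_iff.2 h] with ω h1 using h1 _ rfl

end RNMod

theorem isPartition_fib {N : Ω → ℕ} (hN : Measurable N) : IsPartition fun k => {ω | N ω = k} := by
  refine ⟨fun k => hN (measurableSet_singleton k), fun k l hkl => ?_, ?_⟩
  · exact Set.disjoint_left.2 fun ω h1 h2 => hkl ((show N ω = k from h1).symm.trans h2)
  · exact eq_univ_of_forall fun ω => mem_iUnion.2 ⟨N ω, rfl⟩

theorem glue_fib_iff {M : RNMod P 𝕜 E} {N : Ω → ℕ} (hN : Measurable N) {x : ℕ → E} {y : E} :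
    Glue M (fun k => {ω | N ω = k}) x y ↔ M.Sel N x y := by
  rw [RNMod.glue_iff (isPartition_fib hN).1, RNMod.sel_iff]

/-- The part of the hypotheses that the proofs use. -/
structure Good (M₁ : RNMod P 𝕜 E₁) (M₂ : RNMod P 𝕜 E₂) (X : Set E₁) (F : E₁ → Set E₂) : Prop where
  selX : ∀ N, Measurable N → ∀ x : ℕ → E₁, (∀ k, x k ∈ X) → ∃ y ∈ X, M₁.Sel N x y
  ne : ∀ x ∈ X, (F x).Nonempty
  up : ∀ N, Measurable N → ∀ x : ℕ → E₁, (∀ k, x k ∈ X) → ∀ y ∈ X, M₁.Sel N x y →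
    ∀ w : ℕ → E₂, (∀ k, w k ∈ F (x k)) → ∃ z ∈ F y, M₂.Sel N w z

variable {M₁ : RNMod P 𝕜 E₁} {M₂ : RNMod P 𝕜 E₂} {X : Set E₁} {Y : Set E₂} {F : E₁ → Set E₂}

theorem good_of (hX : StableSet M₁ X) (hY : StableSet M₂ Y) (hF : StableMap M₁ M₂ X Y F) :
    Good M₁ M₂ X F := by
  refine ⟨fun N hN x hx => ?_, fun x hx => (hF.1 x hx).1, fun N hN x hx y hy hs w hw => ?_⟩
  · obtain ⟨y, hy, hg⟩ := hX.2 _ (isPartition_fib hN) x hx
    exact ⟨y, hy, (glue_fib_iff hN).1 hg⟩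
  · obtain ⟨z, hz, hg⟩ := hY.2 _ (isPartition_fib hN) w fun k => (hF.1 _ (hx k)).2 (hw k)
    refine ⟨z, ?_, (glue_fib_iff hN).1 hg⟩
    rw [hF.2 _ (isPartition_fib hN) x hx y hy ((glue_fib_iff hN).2 hs)]
    exact ⟨hz, w, hw, hg⟩

open Classical in
theorem sel_two {M : RNMod P 𝕜 E} {a : Set Ω} {u v y : E} :
    M.Sel (fun ω => if ω ∈ a then 0 else 1) (fun k => if k = 0 then u else v) y ↔
      M.Ag a y u ∧ M.Ag aᶜ y v := by
  constructor
  · intro h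
    constructor
    · filter_upwards [h] with ω h1 h2
      simpa [h2] using h1
    · filter_upwards [h] with ω h1 h2
      simpa [show ω ∉ a from h2] using h1
  · rintro ⟨h1, h2⟩
    filter_upwards [h1, h2] with ω h1 h2
    by_cases hω : ω ∈ a
    · simpa [hω] using h1 hω
    · simpa [hω] using h2 hω

open Classical in
theorem meas_two {a : Set Ω} (ha : MeasurableSet a) :
    Measurable fun ω => if ω ∈ a then (0 : ℕ) else 1 :=
  Measurable.ite ha measurable_const measurable_const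

theorem Good.twoX (h : Good M₁ M₂ X F) {a : Set Ω} (ha : MeasurableSet a) {u v : E₁}
    (hu : u ∈ X) (hv : v ∈ X) : ∃ y ∈ X, M₁.Ag a y u ∧ M₁.Ag aᶜ y v := by
  obtain ⟨y, hy, hs⟩ := h.selX _ (meas_two ha) (fun k => if k = 0 then u else v)
    fun k => by split_ifs <;> assumption
  exact ⟨y, hy, sel_two.1 hs⟩

theorem Good.twoF (h : Good M₁ M₂ X F) {a : Set Ω} (ha : MeasurableSet a) {u v y : E₁}
    (hu : u ∈ X) (hv : v ∈ X) (hy : y ∈ X) (h1 : M₁.Ag a y u) (h2 : M₁.Ag aᶜ y v) {z₁ z₂ : E₂}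
    (hz₁ : z₁ ∈ F u) (hz₂ : z₂ ∈ F v) : ∃ z ∈ F y, M₂.Ag a z z₁ ∧ M₂.Ag aᶜ z z₂ := by
  obtain ⟨z, hz, hs⟩ := h.up _ (meas_two ha) (fun k => if k = 0 then u else v)
    (fun k => by split_ifs <;> assumption) y hy (sel_two.2 ⟨h1, h2⟩)
    (fun k => if k = 0 then z₁ else z₂) fun k => by split_ifs <;> assumption
  exact ⟨z, hz, sel_two.1 hs⟩

theorem Good.selA (h : Good M₁ M₂ X F) {x₀ : E₁} (hx : x₀ ∈ X) {N : Ω → ℕ} (hN : Measurable N)
    {w : ℕ → E₂} (hw : ∀ k, w k ∈ F x₀) : ∃ z ∈ F x₀, M₂.Sel N w z :=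
  h.up N hN (fun _ => x₀) (fun _ => hx) x₀ hx (M₁.d_self x₀) w hw

theorem Good.twoA (h : Good M₁ M₂ X F) {x₀ : E₁} (hx : x₀ ∈ X) {a : Set Ω} (ha : MeasurableSet a)
    {z₁ z₂ : E₂} (hz₁ : z₁ ∈ F x₀) (hz₂ : z₂ ∈ F x₀) :
    ∃ z ∈ F x₀, M₂.Ag a z z₁ ∧ M₂.Ag aᶜ z z₂ :=
  h.twoF ha hx hx hx ((M₁.d_self x₀).mono fun _ h _ => h) ((M₁.d_self x₀).mono fun _ h _ => h)
    hz₁ hz₂

/-! Measure theory helpers. -/

theorem exists_index (p : ℕ → Set Ω) (hp : ∀ n, MeasurableSet (p n)) :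
    ∃ N : Ω → ℕ, Measurable N ∧ ∀ ω n, ω ∈ p n → ω ∈ p (N ω) := by
  classical
  have h : ∀ ω, ∃ n, ω ∈ p n ∨ ω ∉ ⋃ m, p m := fun ω => by
    by_cases hω : ω ∈ ⋃ m, p m
    · obtain ⟨n, hn⟩ := mem_iUnion.1 hω
      exact ⟨n, Or.inl hn⟩
    · exact ⟨0, Or.inr hω⟩
  refine ⟨fun ω => Nat.find (h ω), measurable_find h fun k =>
    (hp k).union (MeasurableSet.iUnion hp).compl, fun ω n hn => ?_⟩
  exact (Nat.find_spec (h ω)).resolve_right fun h' => h' (mem_iUnion.2 ⟨n, hn⟩)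

theorem exists_max [IsFiniteMeasure P] {ι : Type} (I : Set ι) (hI : I.Nonempty) (s : ι → Set Ω)
    (hs : ∀ i ∈ I, MeasurableSet (s i)) :
    ∃ (i : ℕ → ι) (N : Ω → ℕ), (∀ k, i k ∈ I) ∧ Measurable N ∧
      ∀ j ∈ I, ∀ᵐ ω ∂P, ω ∈ s j → ω ∈ s (i (N ω)) := by
  obtain ⟨D, hDC, hDc, hD⟩ := Measure.exists_ae_subset_biUnion_countable P (C := s '' I)
    (by rintro _ ⟨i, hi, rfl⟩; exact hs i hi)
  obtain ⟨i₀, hi₀⟩ := hI
  obtain ⟨f, hf⟩ := (hDc.insert (s i₀)).exists_eq_range (insert_nonempty _ _)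
  have h1 : ∀ k, ∃ i ∈ I, s i = f k := fun k => by
    have : f k ∈ insert (s i₀) D := hf ▸ mem_range_self k
    rcases this with h | h
    · exact ⟨i₀, hi₀, h.symm⟩
    · exact hDC h
  choose i hi hsi using h1
  obtain ⟨N, hN, hN'⟩ := exists_index (fun k => s (i k)) fun k => hs _ (hi k)
  refine ⟨i, N, hi, hN, fun j hj => ?_⟩
  filter_upwards [hD _ ⟨j, hj, rfl⟩] with ω h hω
  obtain ⟨t, ht, hωt⟩ := h hω
  obtain ⟨k, rfl⟩ : t ∈ range f := hf ▸ mem_insert_of_mem _ ht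
  exact hN' ω k (by rw [hsi]; exact hωt)

theorem real_mono_ae [IsFiniteMeasure P] {s t : Set Ω} (h : ∀ᵐ ω ∂P, ω ∈ s → ω ∈ t) :
    P.real s ≤ P.real t :=
  ENNReal.toReal_mono (measure_ne_top _ _) (measure_mono_ae h)

theorem real_le_add_ae [IsFiniteMeasure P] {s t u : Set Ω}
    (h : ∀ᵐ ω ∂P, ω ∈ s → ω ∈ t ∨ ω ∈ u) : P.real s ≤ P.real t + P.real u :=
  (real_mono_ae (t := t ∪ u) h).trans (measureReal_union_le _ _)

theorem real_pos [IsFiniteMeasure P] {s : Set Ω} (h : P s ≠ 0) : 0 < P.real s :=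
  ENNReal.toReal_pos h (measure_ne_top _ _)

theorem of_ae_on {a : Set Ω} (ha : P a ≠ 0) {p : Prop} (h : ∀ᵐ ω ∂P, ω ∈ a → p) : p := by
  by_contra hp
  refine ha (measure_mono_null ?_ (ae_iff.1 h))
  exact fun ω hω h' => hp (h' hω)

/-- Continuity from below, in the form used here. -/
theorem exists_real_gt [IsFiniteMeasure P] {s : Set Ω} {t : ℕ → Set Ω} (ht : Monotone t)
    (h : ∀ᵐ ω ∂P, ω ∈ s → ∃ n, ω ∈ t n) {c : ℝ} (hc : c < P.real s) : ∃ n, c < P.real (t n) := by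
  have h1 := (ENNReal.tendsto_toReal (measure_ne_top P _)).comp
    (tendsto_measure_iUnion_atTop (μ := P) ht)
  have h2 : P.real s ≤ P.real (⋃ n, t n) :=
    real_mono_ae (h.mono fun ω h1 h2 => mem_iUnion.2 (h1 h2))
  exact (h1.eventually (lt_mem_nhds (hc.trans_le h2))).exists

/-- Continuity from above, in the form used here. -/
theorem exists_real_lt [IsFiniteMeasure P] {t : ℕ → Set Ω} (hm : ∀ n, MeasurableSet (t n))
    (ht : Antitone t) (h : ∀ᵐ ω ∂P, ∃ n, ω ∉ t n) {c : ℝ} (hc : 0 < c) :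
    ∃ n, P.real (t n) < c := by
  have h1 := (ENNReal.tendsto_toReal (measure_ne_top P _)).comp
    (tendsto_measure_iInter_atTop (μ := P) (fun n => (hm n).nullMeasurableSet) ht
      ⟨0, measure_ne_top _ _⟩)
  have h2 : P.real (⋂ n, t n) ≤ P.real (∅ : Set Ω) :=
    real_mono_ae (h.mono fun ω ⟨n, h1⟩ h2 => h1 (mem_iInter.1 h2 n))
  rw [measureReal_empty] at h2
  exact (h1.eventually (gt_mem_nhds (h2.trans_lt hc))).exists

/-- A measurable function is almost surely constant on an atom. -/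
theorem atom_const [IsFiniteMeasure P] {β : Type} [MeasurableSpace β] [Nonempty β]
    [HasCountableSeparatingOn β MeasurableSet univ] {a : Set Ω} (ha : IsAtom P a) {f : Ω → β}
    (hf : Measurable f) : ∃ c, ∀ᵐ ω ∂P, ω ∈ a → f ω = c := by
  obtain ⟨c, hc⟩ := Filter.exists_eventuallyEq_const_of_forall_separating
    (l := ae (P.restrict a)) (f := f) MeasurableSet fun U hU => by
      rcases ha.2.2 (a ∩ f ⁻¹' U) (ha.1.inter (hf hU)) inter_subset_left with h | h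
      · refine Or.inr ((ae_restrict_iff' ha.1).2 ?_)
        filter_upwards [measure_eq_zero_iff_ae_notMem.1 h] with ω h1 h2 h3 using h1 ⟨h2, h3⟩
      · refine Or.inl ((ae_restrict_iff' ha.1).2 ?_)
        have h0 : P (a \ f ⁻¹' U) = 0 := by
          have := measure_inter_add_sdiff (μ := P) a (hf hU)
          rw [h] at this
          exact (ENNReal.add_right_inj (measure_ne_top P a)).1 (this.trans (add_zero _).symm)
        filter_upwards [measure_eq_zero_iff_ae_notMem.1 h0] with ω h1 h2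
        by_contra h3
        exact h1 ⟨h2, h3⟩
  exact ⟨c, (ae_restrict_iff' ha.1).1 hc⟩

end Pool.Agent.Lib.MP_4f3acd_an.RN
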