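import Pool.Agent.Lib.MP_4f3acd_an.RNBasic

set_option autoImplicit false

namespace Pool.Agent.Lib.MP_4f3acd_an.RN

open MeasureTheory Filter Topology Set

variable {Ω : Type} [MeasurableSpace Ω] {P : Measure Ω} {𝕜 : Type} [RCLike 𝕜] {E E₁ E₂ : Type}
  [AddCommGroup E] [AddCommGroup E₁] [AddCommGroup E₂]
  {M₁ : RNMod P 𝕜 E₁} {M₂ : RNMod P 𝕜 E₂} {X : Set E₁} {F : E₁ → Set E₂}

theorem meas_sel_set {N : Ω → ℕ} (hN : Measurable N) {s : ℕ → Set Ω}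
    (hs : ∀ k, MeasurableSet (s k)) : MeasurableSet {ω | ω ∈ s (N ω)} := by
  have : {ω | ω ∈ s (N ω)} = ⋃ k, (N ⁻¹' {k} ∩ s k) := by
    ext ω
    simp only [mem_iUnion, mem_inter_iff, mem_preimage, mem_singleton_iff]
    exact ⟨fun h => ⟨_, rfl, h⟩, fun ⟨k, h1, h2⟩ => by subst h1; exact h2⟩
  rw [this]
  exact MeasurableSet.iUnion fun k => (hN (measurableSet_singleton k)).inter (hs k)

theorem Good.closest [IsFiniteMeasure P] (h : Good M₁ M₂ X F) {x₀ : E₁} (hx : x₀ ∈ X)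
    {η : Ω → ℝ} (hη : Measurable η) (z : E₂) :
    ∃ y' ∈ F x₀, ∀ y ∈ F x₀, ∀ᵐ ω ∂P, M₂.d z y ω ≤ η ω → M₂.d z y' ω ≤ η ω := by
  obtain ⟨i, N, hi, hN, hmax⟩ := exists_max (P := P) (F x₀) (h.ne _ hx)
    (fun y => {ω | M₂.d z y ω ≤ η ω}) fun y _ => measurableSet_le (M₂.d_meas z y) hη
  obtain ⟨y', hy', hs⟩ := h.selA hx hN hi
  refine ⟨y', hy', fun y hy => ?_⟩
  filter_upwards [hmax y hy, hs.right z] with ω h1 h2 h3
  rw [h2]; exact h1 h3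

/-- Near x0 the values of F stay within eta of F x0 on the set G. -/
def Near (M₁ : RNMod P 𝕜 E₁) (M₂ : RNMod P 𝕜 E₂) (X : Set E₁) (F : E₁ → Set E₂) (x₀ : E₁)
    (G : Set Ω) (η : Ω → ℝ) : Prop :=
  ∃ δ : Ω → ℝ, Measurable δ ∧ (∀ ω, 0 < δ ω) ∧ ∀ x ∈ X, (∀ᵐ ω ∂P, M₁.d x x₀ ω < δ ω) →
    ∀ z ∈ F x, ∃ y ∈ F x₀, ∀ᵐ ω ∂P, ω ∈ G → M₂.d z y ω ≤ η ω

theorem Good.dichotomy [IsFiniteMeasure P] (h : Good M₁ M₂ X F) {x₀ : E₁} (hx : x₀ ∈ X)
    {G : Set Ω} (hG : MeasurableSet G) {η : Ω → ℝ} (hη : Measurable η)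
    (hn : ¬ Near M₁ M₂ X F x₀ G η) :
    ∃ (D : Set Ω) (x : ℕ → E₁) (z : ℕ → E₂), MeasurableSet D ∧ D ⊆ G ∧ P D ≠ 0 ∧
      (∀ n, x n ∈ X) ∧ (∀ n, z n ∈ F (x n)) ∧
      (∀ n : ℕ, ∀ᵐ ω ∂P, M₁.d (x n) x₀ ω ≤ 1 / ((n : ℝ) + 1)) ∧
      ∀ n, ∀ y ∈ F x₀, ∀ᵐ ω ∂P, ω ∈ D → η ω < M₂.d (z n) y ω := by
  let Adm : ℕ → Set (E₁ × E₂ × Set Ω) := fun n => {t | t.1 ∈ X ∧ t.2.1 ∈ F t.1 ∧
    (∀ᵐ ω ∂P, M₁.d t.1 x₀ ω ≤ 1 / ((n : ℝ) + 1)) ∧ MeasurableSet t.2.2 ∧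
    ∀ y ∈ F x₀, ∀ᵐ ω ∂P, ω ∈ t.2.2 → η ω < M₂.d t.2.1 y ω}
  obtain ⟨y₀, hy₀⟩ := h.ne _ hx
  have key : ∀ n, ∃ t ∈ Adm n, ∀ t' ∈ Adm n, ∀ᵐ ω ∂P, ω ∈ t'.2.2 → ω ∈ t.2.2 := by
    intro n
    have hne : (Adm n).Nonempty := by
      refine ⟨(x₀, y₀, ∅), hx, hy₀, ?_, MeasurableSet.empty, fun y _ =>
        Eventually.of_forall fun ω hω => absurd hω (notMem_empty ω)⟩
      filter_upwards [M₁.d_self x₀] with ω h1
      rw [h1]; positivity
    obtain ⟨i, N, hi, hN, hmax⟩ := exists_max (P := P) (Adm n) hne (fun t => t.2.2)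
      fun t ht => ht.2.2.2.1
    obtain ⟨x, hxX, hsx⟩ := h.selX N hN (fun k => (i k).1) fun k => (hi k).1
    obtain ⟨z, hz, hsz⟩ := h.up N hN (fun k => (i k).1) (fun k => (hi k).1) x hxX hsx
      (fun k => (i k).2.1) fun k => (hi k).2.1
    refine ⟨(x, z, {ω | ω ∈ (i (N ω)).2.2}), ⟨hxX, hz, ?_,
      meas_sel_set hN (s := fun k => (i k).2.2) fun k => (hi k).2.2.2.1, fun y hy => ?_⟩, hmax⟩
    · filter_upwards [hsx.left x₀, ae_all_iff.2 fun k => (hi k).2.2.1] with ω h1 h2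
      rw [h1]; exact h2 _
    · filter_upwards [hsz.left y, ae_all_iff.2 fun k => (hi k).2.2.2.2 y hy] with ω h1 h2 h3
      rw [h1]; exact h2 _ h3
  choose t ht hmax using key
  by_cases hD : P (G ∩ ⋂ n, (t n).2.2) = 0
  swap
  · refine ⟨_, fun n => (t n).1, fun n => (t n).2.1,
      hG.inter (MeasurableSet.iInter fun n => (ht n).2.2.2.1), inter_subset_left, hD,
      fun n => (ht n).1, fun n => (ht n).2.1, fun n => (ht n).2.2.1, fun n y hy => ?_⟩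
    filter_upwards [(ht n).2.2.2.2 y hy] with ω h1 h2 using h1 (mem_iInter.1 h2.2 n)
  exfalso
  obtain ⟨N, hN, hN'⟩ := exists_index (fun n => ((t n).2.2)ᶜ) fun n => (ht n).2.2.2.1.compl
  refine hn ⟨fun ω => 1 / ((N ω : ℝ) + 1), by fun_prop, fun ω => by positivity,
    fun x hxX hxd z hz => ?_⟩
  obtain ⟨y', hy', hcl⟩ := h.closest hx hη z
  refine ⟨y', hy', ?_⟩
  have hbad : ∀ n, ∀ᵐ ω ∂P, ω ∈ {ω | N ω = n} ∩ {ω | η ω < M₂.d z y' ω} → ω ∈ (t n).2.2 := by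
    intro n
    have ha : MeasurableSet {ω | N ω = n} := hN (measurableSet_singleton n)
    obtain ⟨x', hx', h1, h2⟩ := h.twoX ha hxX hx
    obtain ⟨z', hz', h3, -⟩ := h.twoF ha hxX hx hx' h1 h2 hz hy₀
    refine hmax n (x', z', {ω | N ω = n} ∩ {ω | η ω < M₂.d z y' ω}) ⟨hx', hz', ?_,
      ha.inter (measurableSet_lt hη (M₂.d_meas z y')), fun y hy => ?_⟩
    · filter_upwards [h1.left x₀, h2, hxd] with ω h4 h5 h6
      by_cases hω : N ω = n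
      · rw [h4 hω, ← hω]; exact h6.le
      · rw [h5 hω]; positivity
    · filter_upwards [h3.left y, hcl y hy] with ω h4 h5 h6
      rw [h4 h6.1]
      by_contra h7
      exact absurd (h5 (not_lt.1 h7)) (not_le.2 h6.2)
  filter_upwards [ae_all_iff.2 hbad, measure_eq_zero_iff_ae_notMem.1 hD] with ω h1 h2 h3
  by_contra h4
  have h5 : ∃ n, ω ∉ (t n).2.2 := by
    by_contra h6
    push Not at h6
    exact h2 ⟨h3, mem_iInter.2 h6⟩
  obtain ⟨n, hn⟩ := h5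
  exact hN' ω n hn (h1 _ ⟨rfl, not_le.1 h4⟩)

/-- The consequence of random sequential upper semicontinuity at a point that is used below. -/
def RSat (M₁ : RNMod P 𝕜 E₁) (M₂ : RNMod P 𝕜 E₂) (X : Set E₁) (F : E₁ → Set E₂) (x₀ : E₁) :
    Prop :=
  ∀ x : ℕ → E₁, (∀ n, x n ∈ X) → (∀ n : ℕ, ∀ᵐ ω ∂P, M₁.d (x n) x₀ ω ≤ 1 / ((n : ℝ) + 1)) →
    ∀ C : Set E₂, (∀ y ∈ F x₀, ∃ ε l : ℝ, 0 < ε ∧ 0 < l ∧
      ∀ w ∈ C, l ≤ P.real {ω | ε ≤ M₂.d w y ω}) →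
      ∃ N, Measurable N ∧ ∃ y ∈ X, M₁.Sel N x y ∧ ∀ w ∈ F y, w ∉ C

theorem real_ge_eq [IsProbabilityMeasure P] (M : RNMod P 𝕜 E) (x y : E) (ε : ℝ) :
    P.real {ω | ε ≤ M.d x y ω} = 1 - P.real {ω | M.nrm (x - y) ω < ε} := by
  rw [← probReal_compl_eq_one_sub (measurableSet_lt (M.nrm (x - y)).measurable measurable_const)]
  congr 1
  ext ω
  simp [RNMod.d]

theorem UscRS.rsat [IsProbabilityMeasure P] (h : UscRS M₁ M₂ X F) {x₀ : E₁} (hx : x₀ ∈ X) :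
    RSat M₁ M₂ X F x₀ := by
  intro x hxX hxd C hC
  let V : Set E₂ := {v | ∃ ε l : ℝ, 0 < ε ∧ 0 < l ∧ ∀ w ∈ C, l ≤ P.real {ω | ε ≤ M₂.d w v ω}}
  have hV : OpenEL M₂ V := by
    rintro v ⟨ε, l, hε, hl, hv⟩
    refine ⟨ε / 2, min (l / 2) (1 / 2), by positivity, by positivity,
      (min_le_right _ _).trans_lt (by norm_num), fun v' hv' =>
      ⟨ε / 2, l / 2, by positivity, by positivity, fun w hw => ?_⟩⟩
    have h1 := real_ge_eq M₂ v' v (ε / 2)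
    have h2 : P.real {ω | ε ≤ M₂.d w v ω} ≤
        P.real {ω | ε / 2 ≤ M₂.d w v' ω} + P.real {ω | ε / 2 ≤ M₂.d v' v ω} := by
      refine real_le_add_ae ?_
      filter_upwards [M₂.d_tri w v' v] with ω h3 h4
      by_contra h5
      simp only [not_or, not_le] at h4 h5
      linarith [h5.1, h5.2]
    have h3 := hv w hw
    have h4 := min_le_left (l / 2) (1 / 2)
    linarith
  have ht : TendstoInMeasure P (fun n => (M₁.nrm (x n - x₀) : Ω → ℝ)) atTop 0 := by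
    refine tendstoInMeasure_of_tendsto_ae (fun n => (M₁.nrm (x n - x₀)).aestronglyMeasurable) ?_
    filter_upwards [ae_all_iff.2 hxd, ae_all_iff.2 fun n => M₁.d_nonneg (x n) x₀] with ω h1 h2
    exact squeeze_zero h2 h1 tendsto_one_div_add_atTop_nhds_zero_nat
  obtain ⟨n, y, k₀, hn, -, hy, hF⟩ := h x₀ hx x hxX ht V ⟨V, hV, hC, subset_rfl⟩
  refine ⟨n k₀, hn k₀, y k₀, (hy k₀).1, (glue_fib_iff (hn k₀)).1 (hy k₀).2, fun w hw hwC => ?_⟩
  obtain ⟨ε, l, hε, hl, hv⟩ := hF k₀ le_rfl hw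
  have h1 : P.real {ω | ε ≤ M₂.d w w ω} ≤ P.real (∅ : Set Ω) := by
    refine real_mono_ae ?_
    filter_upwards [M₂.d_self w] with ω h2 h3
    exact absurd (le_trans h3 h2.le) (not_le.2 hε)
  rw [measureReal_empty] at h1
  linarith [hv w hwC]

theorem excess [IsProbabilityMeasure P] (h : Good M₁ M₂ X F) {x₀ : E₁} (hx : x₀ ∈ X)
    (hr : RSat M₁ M₂ X F x₀) {η : Ω → ℝ} (hη : Measurable η) (hη0 : ∀ᵐ ω ∂P, 0 < η ω) :
    Near M₁ M₂ X F x₀ univ η := by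
  by_contra hn
  obtain ⟨D, x, z, hD, -, hD0, hxX, hz, hxd, hfar⟩ := h.dichotomy hx MeasurableSet.univ hη hn
  obtain ⟨m, hm⟩ := exists_real_gt (P := P) (s := D)
    (t := fun m : ℕ => D ∩ {ω | 1 / ((m : ℝ) + 1) ≤ η ω})
    (fun a b hab ω hω => ⟨hω.1, le_trans (Nat.one_div_le_one_div (α := ℝ) hab) hω.2⟩)
    (hη0.mono fun ω h1 h2 => by
      obtain ⟨m, hm⟩ := exists_nat_one_div_lt h1
      exact ⟨m, h2, hm.le⟩) (real_pos hD0)
  obtain ⟨N, hN, y, hy, hs, hC⟩ := hr x hxX hxd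
    {w | ∀ y ∈ F x₀, ∀ᵐ ω ∂P, ω ∈ D → η ω < M₂.d w y ω} fun y hy =>
      ⟨1 / ((m : ℝ) + 1), _, by positivity, hm, fun w hw => real_mono_ae <| by
        filter_upwards [hw y hy] with ω h1 h2 using le_trans h2.2 (h1 h2.1).le⟩
  obtain ⟨w, hw, hsw⟩ := h.up N hN x hxX y hy hs z hz
  refine hC w hw fun y' hy' => ?_
  filter_upwards [hsw.left y', ae_all_iff.2 fun n => hfar n y' hy'] with ω h1 h2 h3
  rw [h1]; exact h2 _ h3

/-- The set A contains a sequence without cluster point in A for convergence in probability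
on B. -/
def Rich (M : RNMod P 𝕜 E) (A : Set E) (B : Set Ω) : Prop :=
  ∃ b : ℕ → E, (∀ j, b j ∈ A) ∧ ∀ y ∈ A, ∃ ε l : ℝ, 0 < ε ∧ 0 < l ∧
    ∀ᶠ j in atTop, l ≤ P.real (B ∩ {ω | ε ≤ M.d (b j) y ω})

theorem label [IsProbabilityMeasure P] (h : Good M₁ M₂ X F) {x₀ : E₁} (hx : x₀ ∈ X)
    (hr : RSat M₁ M₂ X F x₀) {B : Set Ω} (hB : MeasurableSet B) (hR : Rich M₂ (F x₀) B) :
    Near M₁ M₂ X F x₀ Bᶜ fun _ => 0 := by
  by_contra hn
  obtain ⟨D, x, z, hD, hDB, hD0, hxX, hz, hxd, hfar⟩ :=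
    h.dichotomy hx hB.compl measurable_const hn
  obtain ⟨b, hb, hcl⟩ := hR
  have hc : 0 < P.real D := real_pos hD0
  choose x' hx' hx1 hx2 using fun n => h.twoX hD (hxX n) hx
  have hxd' : ∀ n : ℕ, ∀ᵐ ω ∂P, M₁.d (x' n) x₀ ω ≤ 1 / ((n : ℝ) + 1) := fun n => by
    filter_upwards [(hx1 n).left x₀, hx2 n, hxd n] with ω h1 h2 h3
    by_cases hω : ω ∈ D
    · rw [h1 hω]; exact h3
    · rw [h2 hω]; positivity
  obtain ⟨N, hN, y, hy, hs, hC⟩ := hr x' hx' hxd'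
    {w | ∃ j, M₂.Ag B w (b j) ∧ P.real D / 2 ≤ P.real (D ∩ {ω | ∃ n ≤ j, M₂.d w (z n) ω = 0})}
    fun y hy => by
      obtain ⟨ε, l, hε, hl, hev⟩ := hcl y hy
      obtain ⟨j₀, hj₀⟩ := eventually_atTop.1 hev
      obtain ⟨m, hm⟩ := exists_real_lt (P := P)
        (t := fun m : ℕ => D ∩ ⋃ n ∈ Finset.range (j₀ + 1),
          {ω | M₂.d (z n) y ω < 1 / ((m : ℝ) + 1)})
        (fun m => hD.inter (Finset.measurableSet_biUnion _ fun n _ =>
          measurableSet_lt (M₂.d_meas _ _) measurable_const))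
        (fun a c hac => inter_subset_inter_right _ (iUnion₂_mono fun n _ ω hω =>
          lt_of_lt_of_le hω (Nat.one_div_le_one_div (α := ℝ) hac)))
        (by
          filter_upwards [ae_all_iff.2 fun n => hfar n y hy] with ω h1
          by_cases hω : ω ∈ D
          · have h2 : ∀ᶠ m : ℕ in atTop, ∀ n ∈ Finset.range (j₀ + 1),
                1 / ((m : ℝ) + 1) < M₂.d (z n) y ω :=
              (eventually_all_finset _).2 fun n _ =>
                tendsto_one_div_add_atTop_nhds_zero_nat.eventually (gt_mem_nhds (h1 n hω))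
            obtain ⟨m, hm⟩ := h2.exists
            refine ⟨m, fun h3 => ?_⟩
            obtain ⟨n, hn, h4⟩ := mem_iUnion₂.1 h3.2
            exact absurd (hm n hn) (not_lt.2 (le_of_lt h4))
          · exact ⟨0, fun h3 => hω h3.1⟩)
        (show 0 < P.real D / 4 by positivity)
      refine ⟨min ε (1 / ((m : ℝ) + 1)), min l (P.real D / 4), by positivity, by positivity, ?_⟩
      rintro w ⟨j, hw1, hw2⟩
      rcases le_total j₀ j with hj | hj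
      · refine (min_le_left _ _).trans ((hj₀ j hj).trans (real_mono_ae ?_))
        filter_upwards [hw1.left y] with ω h1 h2
        rw [h1 h2.1]
        exact (min_le_left _ _).trans h2.2
      · have h1 : P.real (D ∩ {ω | ∃ n ≤ j, M₂.d w (z n) ω = 0}) ≤
            P.real (D ∩ ⋃ n ∈ Finset.range (j₀ + 1), {ω | M₂.d (z n) y ω < 1 / ((m : ℝ) + 1)}) +
            P.real {ω | min ε (1 / ((m : ℝ) + 1)) ≤ M₂.d w y ω} := by
          refine real_le_add_ae ?_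
          filter_upwards [ae_all_iff.2 fun n => M₂.d_congr w (z n) y] with ω h2 h3
          obtain ⟨hω, n, hn, h4⟩ := h3
          by_cases h5 : M₂.d (z n) y ω < 1 / ((m : ℝ) + 1)
          · exact Or.inl ⟨hω, mem_iUnion₂.2 ⟨n, Finset.mem_range.2 (by omega), h5⟩⟩
          · refine Or.inr ?_
            rw [h2 n h4]
            exact (min_le_right _ _).trans (not_lt.1 h5)
        have h2 := min_le_right l (P.real D / 4)
        linarith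
  obtain ⟨j, hj⟩ := exists_real_gt (P := P) (s := D) (t := fun j : ℕ => D ∩ {ω | N ω ≤ j})
    (fun a c hac ω hω => ⟨hω.1, le_trans hω.2 hac⟩)
    (Eventually.of_forall fun ω hω => ⟨N ω, hω, le_refl (N ω)⟩) (half_lt_self hc)
  choose w hw hw1 hw2 using fun n =>
    h.twoF hD (hxX n) hx (hx' n) (hx1 n) (hx2 n) (hz n) (hb j)
  obtain ⟨v, hv, hsv⟩ := h.up N hN x' hx' y hy hs w hw
  refine hC v hv ⟨j, ?_, hj.le.trans (real_mono_ae ?_)⟩
  · filter_upwards [hsv.left (b j), ae_all_iff.2 hw2] with ω h1 h2 h3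
    rw [h1]; exact h2 _ fun h4 => hDB h4 h3
  · filter_upwards [ae_all_iff.2 fun n => hsv.left (z n), ae_all_iff.2 hw1] with ω h1 h2 h3
    refine ⟨h3.1, N ω, h3.2, ?_⟩
    rw [h1]; exact h2 _ h3.1

theorem OpenEL.openC [IsProbabilityMeasure P] {M : RNMod P 𝕜 E} {U : Set E} (h : OpenEL M U) :
    OpenC M U := by
  intro x hx
  obtain ⟨ε, l, hε, hl, -, hU⟩ := h x hx
  refine ⟨AEEqFun.const Ω ε, ?_, fun y hy => hU y ?_⟩
  · filter_upwards [AEEqFun.coeFn_const (α := Ω) (μ := P) ε] with ω h1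
    rw [h1]; exact hε
  · have : P.real (univ : Set Ω) ≤ P.real {ω | M.nrm (y - x) ω < ε} := by
      refine real_mono_ae ?_
      filter_upwards [hy, AEEqFun.coeFn_const (α := Ω) (μ := P) ε] with ω h1 h2 _
      rw [h2] at h1; exact h1
    rw [probReal_univ] at this
    linarith

theorem uscRS_of_uscC [IsProbabilityMeasure P] (h : Good M₁ M₂ X F) (hc : UscC M₁ M₂ X F) :
    UscRS M₁ M₂ X F := by
  rintro x₀ hx x hxX ht V ⟨O, hO, hFO, hOV⟩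
  obtain ⟨W, ⟨O', hO', hxO, hOW⟩, hW⟩ := hc x₀ hx V ⟨O, hO.openC, hFO, hOV⟩
  obtain ⟨δ, hδ, hball⟩ := hO' x₀ (hxO rfl)
  obtain ⟨ns, hns, hae⟩ := ht.exists_seq_tendsto_ae
  obtain ⟨K, hK, hK'⟩ := exists_index
    (fun m => ⋂ j, {ω | M₁.d (x (ns (m + j))) x₀ ω < δ ω})
    fun m => MeasurableSet.iInter fun j => measurableSet_lt (M₁.d_meas _ _) δ.measurable
  have hm : ∀ k, Measurable fun ω => ns (K ω + k) := fun k =>
    (measurable_from_nat (f := fun m => ns (m + k))).comp hK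
  choose y hy hs using fun k => h.selX _ (hm k) x hxX
  refine ⟨fun k ω => ns (K ω + k), y, 0, hm, fun k => Eventually.of_forall fun ω =>
    hns (by omega), fun k => ⟨hy k, (glue_fib_iff (hm k)).2 (hs k)⟩, fun k _ =>
    hW _ ⟨hOW (hball _ ?_), hy k⟩⟩
  filter_upwards [hae, hδ, (hs k).left x₀] with ω h1 h2 h3
  obtain ⟨m, hm⟩ := eventually_atTop.1 (h1.eventually (gt_mem_nhds h2))
  have h4 := hK' ω m (mem_iInter.2 fun j => hm (m + j) (by omega))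
  exact lt_of_eq_of_lt h3 (mem_iInter.1 h4 k)

end Pool.Agent.Lib.MP_4f3acd_an.RN
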