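import Pool.Agent.Lib.MP_4f3acd_an.RNBasic

set_option autoImplicit false

namespace Pool.Agent.Lib.MP_4f3acd_an.RN

open MeasureTheory Filter Topology Set

variable {Ω : Type} [MeasurableSpace Ω] {P : Measure Ω}

/-- The algebra of classes of scalar random variables as a random normed module over itself. -/
noncomputable def selfMod (P : Measure Ω) (𝕜 : Type) [RCLike 𝕜] : RNMod P 𝕜 (Ω →ₘ[P] 𝕜) where
  smul ξ x := ξ * x
  nrm x := AEEqFun.comp norm continuous_norm x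
  one_smul := one_mul
  mul_smul := mul_assoc
  add_smul ξ η x := by
    refine AEEqFun.ext ?_
    filter_upwards [AEEqFun.coeFn_mul (ξ + η) x, AEEqFun.coeFn_add ξ η,
      AEEqFun.coeFn_add (ξ * x) (η * x), AEEqFun.coeFn_mul ξ x, AEEqFun.coeFn_mul η x]
      with ω h1 h2 h3 h4 h5
    rw [h1, h3, Pi.mul_apply, Pi.add_apply, h2, h4, h5, Pi.add_apply, Pi.mul_apply, Pi.mul_apply,
      add_mul]
  smul_add ξ x y := by
    refine AEEqFun.ext ?_
    filter_upwards [AEEqFun.coeFn_mul ξ (x + y), AEEqFun.coeFn_add x y,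
      AEEqFun.coeFn_add (ξ * x) (ξ * y), AEEqFun.coeFn_mul ξ x, AEEqFun.coeFn_mul ξ y]
      with ω h1 h2 h3 h4 h5
    rw [h1, h3, Pi.mul_apply, Pi.add_apply, h2, h4, h5, Pi.add_apply, Pi.mul_apply, Pi.mul_apply,
      mul_add]
  nrm_nonneg x := by
    filter_upwards [AEEqFun.coeFn_comp norm continuous_norm x] with ω h
    rw [h]; exact norm_nonneg _
  nrm_smul ξ x := by
    filter_upwards [AEEqFun.coeFn_comp norm continuous_norm (ξ * x),
      AEEqFun.coeFn_comp norm continuous_norm x, AEEqFun.coeFn_mul ξ x] with ω h1 h2 h3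
    rw [h1, h2, Function.comp_apply, Function.comp_apply, h3, Pi.mul_apply, norm_mul]
  nrm_add x y := by
    filter_upwards [AEEqFun.coeFn_comp norm continuous_norm (x + y),
      AEEqFun.coeFn_comp norm continuous_norm x, AEEqFun.coeFn_comp norm continuous_norm y,
      AEEqFun.coeFn_add x y] with ω h1 h2 h3 h4
    rw [h1, h2, h3, Function.comp_apply, Function.comp_apply, Function.comp_apply, h4,
      Pi.add_apply]
    exact norm_add_le _ _
  eq_zero x hx := by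
    refine AEEqFun.ext ?_
    have h := AEEqFun.coeFn_comp norm continuous_norm x
    rw [hx] at h
    filter_upwards [h, AEEqFun.coeFn_zero (α := Ω) (μ := P) (β := ℝ),
      AEEqFun.coeFn_zero (α := Ω) (μ := P) (β := 𝕜)] with ω h1 h2 h3
    rw [h2] at h1
    rw [h3]
    exact norm_eq_zero.1 h1.symm

variable {𝕜 : Type} [RCLike 𝕜]

theorem selfMod_nrm_sub (x y : Ω →ₘ[P] 𝕜) :
    ∀ᵐ ω ∂P, (selfMod P 𝕜).nrm (x - y) ω = ‖x ω - y ω‖ := by
  filter_upwards [AEEqFun.coeFn_comp norm continuous_norm (x - y), AEEqFun.coeFn_sub x y]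
    with ω h1 h2
  show (AEEqFun.comp norm continuous_norm (x - y)) ω = _
  rw [h1, Function.comp_apply, h2, Pi.sub_apply]

theorem selfMod_ag {s : Set Ω} {x y : Ω →ₘ[P] 𝕜} :
    (selfMod P 𝕜).Ag s x y ↔ ∀ᵐ ω ∂P, ω ∈ s → x ω = y ω := by
  constructor
  · intro h
    filter_upwards [h, selfMod_nrm_sub x y] with ω h1 h2 hω
    have h3 := h1 hω
    unfold RNMod.d at h3
    rw [h2] at h3
    exact sub_eq_zero.1 (norm_eq_zero.1 h3)
  · intro h
    filter_upwards [h, selfMod_nrm_sub x y] with ω h1 h2 hω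
    unfold RNMod.d
    rw [h2, h1 hω, sub_self, norm_zero]

theorem selfMod_glue {a : ℕ → Set Ω} (ha : ∀ k, MeasurableSet (a k)) {x : ℕ → Ω →ₘ[P] 𝕜}
    {y : Ω →ₘ[P] 𝕜} :
    Glue (selfMod P 𝕜) a x y ↔ ∀ k, ∀ᵐ ω ∂P, ω ∈ a k → y ω = x k ω := by
  rw [RNMod.glue_iff ha]
  exact forall_congr' fun k => selfMod_ag

theorem exists_index_eq (a : ℕ → Set Ω) (ha : ∀ n, MeasurableSet (a n))
    (hd : Pairwise fun m n => Disjoint (a m) (a n)) :
    ∃ N : Ω → ℕ, Measurable N ∧ ∀ ω n, ω ∈ a n → N ω = n := by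
  obtain ⟨N, hN, h⟩ := exists_index a ha
  refine ⟨N, hN, fun ω n hn => ?_⟩
  by_contra hne
  exact Set.disjoint_left.1 (hd hne) (h ω n hn) hn

theorem selfMod_stable : StableSet (selfMod P 𝕜) univ := by
  refine ⟨univ_nonempty, fun a ha x _ => ?_⟩
  obtain ⟨N, hN, h⟩ := exists_index_eq a ha.1 ha.2.1
  have hm : Measurable fun ω => x (N ω) ω := by
    intro s hs
    have : (fun ω => x (N ω) ω) ⁻¹' s = ⋃ k, N ⁻¹' {k} ∩ (x k) ⁻¹' s := by
      ext ω; simp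
    rw [this]
    exact MeasurableSet.iUnion fun k =>
      (hN (measurableSet_singleton k)).inter ((x k).measurable hs)
  refine ⟨AEEqFun.mk _ hm.aestronglyMeasurable, mem_univ _, (selfMod_glue ha.1).2 fun k => ?_⟩
  filter_upwards [AEEqFun.coeFn_mk _ hm.aestronglyMeasurable] with ω h1 hω
  rw [h1, h ω k hω]

theorem ball_stable (ρ : Ω → ℝ) (hρ : ∀ ω, 0 ≤ ρ ω) :
    StableMap (selfMod P 𝕜) (selfMod P 𝕜) univ univ
      (fun x => {y | ∀ᵐ ω ∂P, ‖y ω - x ω‖ ≤ ρ ω}) := by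
  refine ⟨fun x _ => ⟨⟨x, show ∀ᵐ ω ∂P, ‖x ω - x ω‖ ≤ ρ ω from
    Eventually.of_forall fun ω => by simpa using hρ ω⟩, subset_univ _⟩,
    fun a ha x _ y _ hxy => ?_⟩
  rw [selfMod_glue ha.1] at hxy
  ext z
  constructor
  · intro hz
    refine ⟨mem_univ _, fun k => x k + (z - y), fun k => ?_, (selfMod_glue ha.1).2 fun k => ?_⟩
    · filter_upwards [hz, AEEqFun.coeFn_add (x k) (z - y), AEEqFun.coeFn_sub z y] with ω h1 h2 h3
      rw [h2, Pi.add_apply, h3, Pi.sub_apply]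
      simpa using h1
    · filter_upwards [hxy k, AEEqFun.coeFn_add (x k) (z - y), AEEqFun.coeFn_sub z y]
        with ω h1 h2 h3 hω
      rw [h2, Pi.add_apply, h3, Pi.sub_apply, h1 hω]
      ring
  · rintro ⟨-, w, hw, hz⟩
    rw [selfMod_glue ha.1] at hz
    have h1 := ae_all_iff.2 hw
    have h2 := ae_all_iff.2 hz
    have h3 := ae_all_iff.2 hxy
    filter_upwards [h1, h2, h3] with ω h1 h2 h3
    obtain ⟨k, hk⟩ := Set.mem_iUnion.1 (ha.2.2 ▸ Set.mem_univ ω : ω ∈ ⋃ k, a k)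
    rw [h2 k hk, h3 k hk]
    exact h1 k

theorem exists_cls {β : Type} [TopologicalSpace β] (a : ℕ → Set Ω)
    (ha : ∀ n, MeasurableSet (a n)) (hd : Pairwise fun m n => Disjoint (a m) (a n))
    (c₀ : β) (c : ℕ → β) :
    ∃ y : Ω →ₘ[P] β, (∀ n, ∀ᵐ ω ∂P, ω ∈ a n → y ω = c n) ∧
      ∀ᵐ ω ∂P, ω ∉ (⋃ n, a n) → y ω = c₀ := by
  classical
  obtain ⟨N, hN, h⟩ := exists_index_eq a ha hd
  have h1 : StronglyMeasurable fun ω => c (N ω) :=
    (StronglyMeasurable.of_discrete (f := c)).comp_measurable hN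
  have hm : StronglyMeasurable fun ω => if ω ∈ (⋃ n, a n) then c (N ω) else c₀ :=
    StronglyMeasurable.ite (MeasurableSet.iUnion ha) h1 stronglyMeasurable_const
  refine ⟨AEEqFun.mk _ hm.aestronglyMeasurable, fun n => ?_, ?_⟩
  · filter_upwards [AEEqFun.coeFn_mk _ hm.aestronglyMeasurable] with ω h2 hω
    rw [h2, if_pos (mem_iUnion.2 ⟨n, hω⟩), h ω n hω]
  · filter_upwards [AEEqFun.coeFn_mk _ hm.aestronglyMeasurable] with ω h2 hω
    rw [h2, if_neg hω]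

theorem ae_cases {a : ℕ → Set Ω} {p : Ω → Prop} (h1 : ∀ n, ∀ᵐ ω ∂P, ω ∈ a n → p ω)
    (h2 : ∀ᵐ ω ∂P, ω ∉ (⋃ n, a n) → p ω) : ∀ᵐ ω ∂P, p ω := by
  filter_upwards [ae_all_iff.2 h1, h2] with ω h3 h4
  by_cases hω : ω ∈ ⋃ n, a n
  · obtain ⟨n, hn⟩ := mem_iUnion.1 hω
    exact h3 n hn
  · exact h4 hω

theorem ball_uscRS [IsProbabilityMeasure P] (a : ℕ → Set Ω) (ha : ∀ n, IsAtom P (a n))
    (hd : Pairwise fun m n => Disjoint (a m) (a n)) (ρ : Ω → ℝ)
    (hρ1 : ∀ ω, ω ∈ (⋃ n, a n) → ρ ω = 1) (hρ0 : ∀ ω, ω ∉ (⋃ n, a n) → ρ ω = 0) :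
    UscRS (selfMod P 𝕜) (selfMod P 𝕜) univ (fun x => {y | ∀ᵐ ω ∂P, ‖y ω - x ω‖ ≤ ρ ω}) := by
  have ham : ∀ n, MeasurableSet (a n) := fun n => (ha n).1
  choose cls hc1 hc0 using exists_cls (P := P) a ham hd (0 : 𝕜)
  rintro x₀ - x - hx V ⟨O, hO, hFO, hOV⟩
  rw [tendstoInMeasure_iff_measureReal_norm] at hx
  have hK : IsCompact (Set.univ.pi fun _ : ℕ => Metric.closedBall (0 : 𝕜) 1) :=
    isCompact_univ_pi fun _ => isCompact_closedBall _ _
  have hs : {p : ℕ × (ℕ → 𝕜) | x p.1 + cls p.2 ∈ O} ∈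
      atTop ×ˢ 𝓝ˢ (Set.univ.pi fun _ : ℕ => Metric.closedBall (0 : 𝕜) 1) := by
    refine hK.mem_prod_nhdsSet_of_forall fun c hc => ?_
    have hmem : x₀ + cls c ∈ O := by
      refine hFO (ae_cases (a := a) (fun n => ?_) ?_)
      · filter_upwards [hc1 c n, AEEqFun.coeFn_add x₀ (cls c)] with ω h1 h2 hω
        rw [h2, Pi.add_apply, h1 hω, hρ1 ω (mem_iUnion.2 ⟨n, hω⟩), add_sub_cancel_left]
        simpa using hc n (mem_univ _)
      · filter_upwards [hc0 c, AEEqFun.coeFn_add x₀ (cls c)] with ω h1 h2 hω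
        rw [h2, Pi.add_apply, h1 hω, hρ0 ω hω]
        simp
    obtain ⟨ε, l, hε, hl, -, h⟩ := hO _ hmem
    obtain ⟨m, hm⟩ := exists_real_lt (P := P) (t := fun m => ⋃ j, ⋃ (_ : m ≤ j), a j)
      (fun m => MeasurableSet.iUnion fun j => MeasurableSet.iUnion fun _ => ham j)
      (fun m m' hmm ω hω => by
        obtain ⟨j, hj, hω⟩ := mem_iUnion₂.1 hω
        exact mem_iUnion₂.2 ⟨j, hmm.trans hj, hω⟩)
      (Eventually.of_forall fun ω => by
        by_cases hω : ω ∈ ⋃ n, a n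
        · obtain ⟨n, hn⟩ := mem_iUnion.1 hω
          refine ⟨n + 1, fun h' => ?_⟩
          obtain ⟨j, hj, hω'⟩ := mem_iUnion₂.1 h'
          exact Set.disjoint_left.1 (hd (show n ≠ j by omega)) hn hω'
        · refine ⟨0, fun h' => hω ?_⟩
          obtain ⟨j, -, hω'⟩ := mem_iUnion₂.1 h'
          exact mem_iUnion.2 ⟨j, hω'⟩) (half_pos hl)
    have e1 := (hx (ε / 2) (half_pos hε)).eventually (gt_mem_nhds (half_pos hl))
    have e2 : ∀ᶠ g in 𝓝 c, ∀ n ∈ Finset.range m, ‖g n - c n‖ < ε / 2 := by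
      rw [eventually_all_finset]
      intro n _
      have : Tendsto (fun g : ℕ → 𝕜 => ‖g n - c n‖) (𝓝 c) (𝓝 ‖c n - c n‖) :=
        (((continuous_apply n).sub continuous_const).norm).continuousAt
      rw [sub_self, norm_zero] at this
      exact this.eventually (gt_mem_nhds (half_pos hε))
    filter_upwards [e1.prod_mk e2] with p hp
    obtain ⟨hp1, hp2⟩ := hp
    refine h _ ?_
    have key : ∀ᵐ ω ∂P, ω ∈ (univ : Set Ω) →
        ω ∈ {ω | (selfMod P 𝕜).nrm (x p.1 + cls p.2 - (x₀ + cls c)) ω < ε} ∨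
        ω ∈ {ω | ε / 2 ≤ ‖(selfMod P 𝕜).nrm (x p.1 - x₀) ω - (0 : Ω → ℝ) ω‖} ∪
          ⋃ j, ⋃ (_ : m ≤ j), a j := by
      filter_upwards [selfMod_nrm_sub (x p.1 + cls p.2) (x₀ + cls c), selfMod_nrm_sub (x p.1) x₀,
        AEEqFun.coeFn_add (x p.1) (cls p.2), AEEqFun.coeFn_add x₀ (cls c),
        ae_all_iff.2 (hc1 p.2), ae_all_iff.2 (hc1 c), hc0 p.2, hc0 c]
        with ω h1 h2 h3 h4 h5 h6 h7 h8 _
      by_cases hb : ε / 2 ≤ ‖x p.1 ω - x₀ ω‖
      · refine Or.inr (Or.inl ?_)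
        simpa [h2] using hb
      by_cases hb' : ω ∈ ⋃ j, ⋃ (_ : m ≤ j), a j
      · exact Or.inr (Or.inr hb')
      refine Or.inl ?_
      have hsm : ‖cls p.2 ω - cls c ω‖ < ε / 2 := by
        by_cases hω : ω ∈ ⋃ n, a n
        · obtain ⟨n, hn⟩ := mem_iUnion.1 hω
          rw [h5 n hn, h6 n hn]
          refine hp2 n (Finset.mem_range.2 ?_)
          by_contra hcon
          exact hb' (mem_iUnion₂.2 ⟨n, not_lt.1 hcon, hn⟩)
        · rw [h7 hω, h8 hω, sub_self, norm_zero]; exact half_pos hε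
      show (selfMod P 𝕜).nrm (x p.1 + cls p.2 - (x₀ + cls c)) ω < ε
      rw [h1, h3, h4, Pi.add_apply, Pi.add_apply, add_sub_add_comm]
      have := norm_add_le (x p.1 ω - x₀ ω) (cls p.2 ω - cls c ω)
      linarith [not_le.1 hb]
    have k1 := real_le_add_ae key
    have k2 := measureReal_union_le (μ := P)
      {ω | ε / 2 ≤ ‖(selfMod P 𝕜).nrm (x p.1 - x₀) ω - (0 : Ω → ℝ) ω‖} (⋃ j, ⋃ (_ : m ≤ j), a j)
    rw [probReal_univ] at k1
    linarith
  obtain ⟨t₁, ht₁, t₂, ht₂, hsub⟩ := mem_prod_iff.1 hs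
  obtain ⟨k₀, hk₀⟩ := mem_atTop_sets.1 ht₁
  refine ⟨fun k _ => k, x, k₀, fun _ => measurable_const,
    fun k => Eventually.of_forall fun _ => Nat.lt_succ_self k,
    fun k => ⟨mem_univ _, (glue_fib_iff (N := fun _ => k) measurable_const).2
      ((selfMod P 𝕜).d_self (x k))⟩, fun k hk z hz => ?_⟩
  choose c hc using fun n => atom_const (ha n) (z - x k).measurable
  have hcK : c ∈ Set.univ.pi fun _ : ℕ => Metric.closedBall (0 : 𝕜) 1 := by
    intro n _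
    refine of_ae_on (ha n).2.1 ?_
    filter_upwards [hz, hc n, AEEqFun.coeFn_sub z (x k)] with ω h1 h2 h3 hω
    rw [hρ1 ω (mem_iUnion.2 ⟨n, hω⟩)] at h1
    rw [mem_closedBall_zero_iff, ← h2 hω, h3, Pi.sub_apply]
    exact h1
  have hzz : z = x k + cls c := by
    refine AEEqFun.ext (ae_cases (a := a) (fun n => ?_) ?_)
    · filter_upwards [hc n, hc1 c n, AEEqFun.coeFn_sub z (x k), AEEqFun.coeFn_add (x k) (cls c)]
        with ω h1 h2 h3 h4 hω
      rw [h4, Pi.add_apply, h2 hω, ← h1 hω, h3, Pi.sub_apply, add_sub_cancel]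
    · filter_upwards [hz, hc0 c, AEEqFun.coeFn_add (x k) (cls c)] with ω h1 h2 h3 hω
      rw [hρ0 ω hω] at h1
      rw [h3, Pi.add_apply, h2 hω, add_zero]
      exact sub_eq_zero.1 (norm_le_zero_iff.1 h1)
  rw [hzz]
  exact hOV (hsub (mk_mem_prod (hk₀ k hk) (subset_of_mem_nhdsSet ht₂ hcK)))

theorem ball_not_uscC [IsProbabilityMeasure P] (a : ℕ → Set Ω) (ha : ∀ n, IsAtom P (a n))
    (hd : Pairwise fun m n => Disjoint (a m) (a n)) (ρ : Ω → ℝ)
    (hρ1 : ∀ ω, ω ∈ (⋃ n, a n) → ρ ω = 1) (hρ0 : ∀ ω, ω ∉ (⋃ n, a n) → ρ ω = 0) :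
    ¬ UscC (selfMod P 𝕜) (selfMod P 𝕜) univ
      (fun x => {y | ∀ᵐ ω ∂P, ‖y ω - x ω‖ ≤ ρ ω}) := by
  intro h
  have ham : ∀ n, MeasurableSet (a n) := fun n => (ha n).1
  choose cls hc1 hc0 using exists_cls (P := P) a ham hd (0 : 𝕜)
  choose val hval using fun (y : Ω →ₘ[P] 𝕜) n => atom_const (ha n) y.measurable
  have hvc : ∀ c n, val (cls c) n = c n := fun c n => by
    refine of_ae_on (ha n).2.1 ?_
    filter_upwards [hval (cls c) n, hc1 c n] with ω h1 h2 hω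
    rw [← h1 hω, h2 hω]
  have hrad : ∀ e : ℕ → ℝ, (∀ n, 0 < e n) → ∃ ε : Ω →ₘ[P] ℝ, (∀ᵐ ω ∂P, 0 < ε ω) ∧
      ∀ y y' : Ω →ₘ[P] 𝕜, (∀ᵐ ω ∂P, (selfMod P 𝕜).nrm (y' - y) ω < ε ω) →
        ∀ n, ‖val y' n - val y n‖ < e n := by
    intro e he
    obtain ⟨ε, h1, h0⟩ := exists_cls (P := P) a ham hd (1 : ℝ) e
    refine ⟨ε, ae_cases (a := a) (fun n => ?_) ?_, fun y y' hy n => ?_⟩
    · filter_upwards [h1 n] with ω h2 hω
      rw [h2 hω]; exact he n
    · filter_upwards [h0] with ω h2 hω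
      rw [h2 hω]; exact one_pos
    · refine of_ae_on (ha n).2.1 ?_
      filter_upwards [hy, selfMod_nrm_sub y' y, h1 n, hval y n, hval y' n]
        with ω h2 h3 h4 h5 h6 hω
      rw [h3, h4 hω, h5 hω, h6 hω] at h2
      exact h2
  let U : Set (Ω →ₘ[P] 𝕜) :=
    {y | ∀ r : ℝ, 0 < r → Tendsto (fun n => val y n) atTop (𝓝 (r : 𝕜)) → ‖val y 0‖ < 1 + r}
  have hlim : ∀ (y y' : ℕ → 𝕜) (e : ℕ → ℝ), Tendsto e atTop (𝓝 0) →
      (∀ n, ‖y' n - y n‖ < e n) → ∀ c : 𝕜, Tendsto (fun n => y' n) atTop (𝓝 c) →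
        Tendsto (fun n => y n) atTop (𝓝 c) := by
    intro y y' e he hy c hc
    have h0 : Tendsto (fun n => y' n - y n) atTop (𝓝 0) :=
      squeeze_zero_norm (fun n => (hy n).le) he
    simpa using hc.sub h0
  have hU : OpenC (selfMod P 𝕜) U := by
    intro y hy
    by_cases hex : ∃ r : ℝ, 0 < r ∧ Tendsto (fun n => val y n) atTop (𝓝 (r : 𝕜))
    · obtain ⟨r, hr, hyr⟩ := hex
      have hpos : 0 < 1 + r - ‖val y 0‖ := sub_pos.2 (hy r hr hyr)
      obtain ⟨ε, hε, hε'⟩ := hrad (fun n => (1 + r - ‖val y 0‖) / (n + 1)) fun n => by positivity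
      refine ⟨ε, hε, fun y' hy' r' _ hr' => ?_⟩
      have hy'' := hε' y y' hy'
      have hz : Tendsto (fun n : ℕ => (1 + r - ‖val y 0‖) / ((n : ℝ) + 1)) atTop (𝓝 0) := by
        simpa [div_eq_mul_inv] using
          (tendsto_one_div_add_atTop_nhds_zero_nat (𝕜 := ℝ)).const_mul (1 + r - ‖val y 0‖)
      have := hlim (val y) (val y') _ hz hy'' _ hr'
      have hrr : r' = r := by exact_mod_cast tendsto_nhds_unique this hyr
      have h0 := hy'' 0
      have h1 := norm_le_norm_add_norm_sub' (val y' 0) (val y 0)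
      simp only [Nat.cast_zero, zero_add, div_one] at h0
      rw [hrr]
      linarith
    · obtain ⟨ε, hε, hε'⟩ := hrad (fun n => (1 : ℝ) / (n + 1)) fun n => by positivity
      refine ⟨ε, hε, fun y' hy' r' hr0 hr' => ?_⟩
      exact absurd ⟨r', hr0, hlim (val y) (val y') _ tendsto_one_div_add_atTop_nhds_zero_nat
        (hε' y y' hy') _ hr'⟩ hex
  obtain ⟨V, ⟨O, hO, h0O, hOV⟩, hV⟩ := h (cls 0) (mem_univ _) U ⟨U, hU, fun y hy r hr _ => by
    have : ‖val y 0‖ ≤ 1 := by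
      refine of_ae_on (ha 0).2.1 ?_
      filter_upwards [hy, hval y 0, hc1 0 0] with ω h1 h2 h3 hω
      rw [h2 hω, h3 hω, hρ1 ω (mem_iUnion.2 ⟨0, hω⟩), Pi.zero_apply, sub_zero] at h1
      exact h1
    linarith, subset_rfl⟩
  obtain ⟨δ, hδ, hδO⟩ := hO _ (h0O rfl)
  obtain ⟨δ₀, hδ₀⟩ := atom_const (ha 0) δ.measurable
  have hδpos : 0 < δ₀ := by
    refine of_ae_on (ha 0).2.1 ?_
    filter_upwards [hδ, hδ₀] with ω h1 h2 hω
    rwa [h2 hω] at h1
  set r : ℝ := min (δ₀ / 2) 1 with hr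
  have hr0 : 0 < r := lt_min (half_pos hδpos) one_pos
  have hr1 : r ≤ 1 := min_le_right _ _
  have hr2 : r < δ₀ := (min_le_left _ _).trans_lt (half_lt_self hδpos)
  have hx : cls (fun n => if n = 0 then (r : 𝕜) else 0) ∈ V := by
    refine hOV (hδO _ (ae_cases (a := a) (fun n => ?_) ?_))
    · filter_upwards [selfMod_nrm_sub (cls fun n => if n = 0 then (r : 𝕜) else 0) (cls 0),
        hc1 (fun n => if n = 0 then (r : 𝕜) else 0) n, hc1 0 n, hδ, hδ₀] with ω h1 h2 h3 h4 h5 hω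
      rw [h1, h2 hω, h3 hω, Pi.zero_apply, sub_zero]
      split_ifs with hn
      · rw [hn] at hω
        rw [h5 hω, RCLike.norm_ofReal, abs_of_pos hr0]; exact hr2
      · simpa using h4
    · filter_upwards [selfMod_nrm_sub (cls fun n => if n = 0 then (r : 𝕜) else 0) (cls 0),
        hc0 (fun n => if n = 0 then (r : 𝕜) else 0), hc0 0, hδ] with ω h1 h2 h3 h4 hω
      rw [h1, h2 hω, h3 hω, sub_zero, norm_zero]
      exact h4
  have hy : cls (fun n => if n = 0 then ((1 + r : ℝ) : 𝕜) else (r : 𝕜)) ∈ U := by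
    refine hV _ ⟨hx, mem_univ _⟩ (ae_cases (a := a) (fun n => ?_) ?_)
    · filter_upwards [hc1 (fun n => if n = 0 then ((1 + r : ℝ) : 𝕜) else (r : 𝕜)) n,
        hc1 (fun n => if n = 0 then (r : 𝕜) else 0) n] with ω h1 h2 hω
      rw [h1 hω, h2 hω, hρ1 ω (mem_iUnion.2 ⟨n, hω⟩)]
      split_ifs with hn
      · simp
      · rw [sub_zero, RCLike.norm_ofReal, abs_of_pos hr0]; exact hr1
    · filter_upwards [hc0 (fun n => if n = 0 then ((1 + r : ℝ) : 𝕜) else (r : 𝕜)),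
        hc0 (fun n => if n = 0 then (r : 𝕜) else 0)] with ω h1 h2 hω
      rw [h1 hω, h2 hω, hρ0 ω hω, sub_zero, norm_zero]
  have := hy r hr0 (by
    refine tendsto_const_nhds.congr' ?_
    filter_upwards [eventually_ne_atTop 0] with n hn
    simp only [hvc, if_neg hn])
  simp only [hvc, if_true, RCLike.norm_ofReal] at this
  rw [abs_of_pos (by linarith)] at this
  exact lt_irrefl _ this

theorem counter (𝕜 : Type) [RCLike 𝕜] [IsProbabilityMeasure P] (a : ℕ → Set Ω)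
    (ha : ∀ n, IsAtom P (a n)) (hd : Pairwise fun m n => Disjoint (a m) (a n)) :
    ∃ (M : RNMod P 𝕜 (Ω →ₘ[P] 𝕜)) (F : (Ω →ₘ[P] 𝕜) → Set (Ω →ₘ[P] 𝕜)),
      StableSet M univ ∧ StableMap M M univ univ F ∧ UscRS M M univ F ∧ ¬ UscC M M univ F := by
  have h1 : ∀ ω, ω ∈ (⋃ n, a n) → (⋃ n, a n).indicator (fun _ => (1 : ℝ)) ω = 1 :=
    fun ω hω => indicator_of_mem hω _
  have h0 : ∀ ω, ω ∉ (⋃ n, a n) → (⋃ n, a n).indicator (fun _ => (1 : ℝ)) ω = 0 :=
    fun ω hω => indicator_of_notMem hω _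
  exact ⟨selfMod P 𝕜, _, selfMod_stable,
    ball_stable _ fun ω => indicator_nonneg (fun _ _ => zero_le_one) ω,
    ball_uscRS a ha hd _ h1 h0, ball_not_uscC a ha hd _ h1 h0⟩

end Pool.Agent.Lib.MP_4f3acd_an.RN
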