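import Mathlib

set_option autoImplicit false

namespace Pool.Agent.Lib.MP_4f3acd_an.RN

open MeasureTheory Filter

variable {Ω : Type} [MeasurableSpace Ω]

/-- A random normed module structure over the field and the base on the additive group E:
a module over the algebra of classes of scalar random variables, with a random norm. -/
structure RNMod (P : Measure Ω) (𝕜 : Type) [RCLike 𝕜] (E : Type) [AddCommGroup E] where
  smul : (Ω →ₘ[P] 𝕜) → E → E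
  nrm : E → (Ω →ₘ[P] ℝ)
  one_smul : ∀ x, smul 1 x = x
  mul_smul : ∀ ξ η x, smul (ξ * η) x = smul ξ (smul η x)
  add_smul : ∀ ξ η x, smul (ξ + η) x = smul ξ x + smul η x
  smul_add : ∀ ξ x y, smul ξ (x + y) = smul ξ x + smul ξ y
  nrm_nonneg : ∀ x, ∀ᵐ ω ∂P, 0 ≤ nrm x ω
  nrm_smul : ∀ ξ x, ∀ᵐ ω ∂P, nrm (smul ξ x) ω = ‖ξ ω‖ * nrm x ω
  nrm_add : ∀ x y, ∀ᵐ ω ∂P, nrm (x + y) ω ≤ nrm x ω + nrm y ω
  eq_zero : ∀ x, nrm x = 0 → x = 0

variable {P : Measure Ω} {𝕜 : Type} [RCLike 𝕜] {E E₁ E₂ : Type}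
  [AddCommGroup E] [AddCommGroup E₁] [AddCommGroup E₂]

/-- A countable measurable partition of the base (some parts may be empty). -/
def IsPartition (a : ℕ → Set Ω) : Prop :=
  (∀ k, MeasurableSet (a k)) ∧ Pairwise (fun k l => Disjoint (a k) (a l)) ∧ (⋃ k, a k) = Set.univ

/-- The element y is the countable concatenation of the x k along a: for every k, multiplying by
the class of the indicator function of a k gives the same element for y and for x k. -/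
def Glue (M : RNMod P 𝕜 E) (a : ℕ → Set Ω) (x : ℕ → E) (y : E) : Prop :=
  ∀ (k : ℕ) (ξ : Ω →ₘ[P] 𝕜), (∀ᵐ ω ∂P, ξ ω = (a k).indicator (fun _ => (1 : 𝕜)) ω) →
    M.smul ξ y = M.smul ξ (x k)

/-- Sigma-stable subsets. -/
def StableSet (M : RNMod P 𝕜 E) (X : Set E) : Prop :=
  X.Nonempty ∧ ∀ a, IsPartition a → ∀ x : ℕ → E, (∀ k, x k ∈ X) → ∃ y ∈ X, Glue M a x y

/-- F restricted to X is a sigma-stable map to the nonempty subsets of Y. -/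
def StableMap (M₁ : RNMod P 𝕜 E₁) (M₂ : RNMod P 𝕜 E₂) (X : Set E₁) (Y : Set E₂)
    (F : E₁ → Set E₂) : Prop :=
  (∀ x ∈ X, (F x).Nonempty ∧ F x ⊆ Y) ∧
    ∀ a, IsPartition a → ∀ x : ℕ → E₁, (∀ k, x k ∈ X) → ∀ y ∈ X, Glue M₁ a x y →
      F y = {z | z ∈ Y ∧ ∃ w : ℕ → E₂, (∀ k, w k ∈ F (x k)) ∧ Glue M₂ a w z}

/-- Open sets of the locally L0-convex topology. -/
def OpenC (M : RNMod P 𝕜 E) (U : Set E) : Prop :=
  ∀ x ∈ U, ∃ ε : Ω →ₘ[P] ℝ, (∀ᵐ ω ∂P, 0 < ε ω) ∧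
    ∀ y, (∀ᵐ ω ∂P, M.nrm (y - x) ω < ε ω) → y ∈ U

/-- Open sets of the (epsilon, lambda)-topology. -/
def OpenEL (M : RNMod P 𝕜 E) (U : Set E) : Prop :=
  ∀ x ∈ U, ∃ ε l : ℝ, 0 < ε ∧ 0 < l ∧ l < 1 ∧
    ∀ y, 1 - l < P.real {ω | M.nrm (y - x) ω < ε} → y ∈ U

/-- U is a neighbourhood of the set A for the topology with the given open sets. -/
def Nbhd {E : Type} (op : Set E → Prop) (A U : Set E) : Prop :=
  ∃ O, op O ∧ A ⊆ O ∧ O ⊆ U

/-- Upper semicontinuity of F on X for the locally L0-convex topologies. -/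
def UscC (M₁ : RNMod P 𝕜 E₁) (M₂ : RNMod P 𝕜 E₂) (X : Set E₁) (F : E₁ → Set E₂) : Prop :=
  ∀ x₀ ∈ X, ∀ U, Nbhd (OpenC M₂) (F x₀) U →
    ∃ V, Nbhd (OpenC M₁) {x₀} V ∧ ∀ x ∈ V ∩ X, F x ⊆ U

/-- Random sequential upper semicontinuity of F on X. -/
def UscRS (M₁ : RNMod P 𝕜 E₁) (M₂ : RNMod P 𝕜 E₂) (X : Set E₁) (F : E₁ → Set E₂) : Prop :=
  ∀ x₀ ∈ X, ∀ x : ℕ → E₁, (∀ n, x n ∈ X) →
    TendstoInMeasure P (fun n => (M₁.nrm (x n - x₀) : Ω → ℝ)) atTop 0 →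
    ∀ V, Nbhd (OpenEL M₂) (F x₀) V →
      ∃ (n : ℕ → Ω → ℕ) (y : ℕ → E₁) (k₀ : ℕ), (∀ k, Measurable (n k)) ∧
        (∀ k, ∀ᵐ ω ∂P, n k ω < n (k + 1) ω) ∧
        (∀ k, y k ∈ X ∧ Glue M₁ (fun l => {ω | n k ω = l}) x (y k)) ∧ ∀ k ≥ k₀, F (y k) ⊆ V

/-- An atom of the measure: a measurable set of positive measure each of whose measurable subsets
is null or has the same measure. -/
def IsAtom (P : Measure Ω) (a : Set Ω) : Prop :=
  MeasurableSet a ∧ P a ≠ 0 ∧ ∀ b, MeasurableSet b → b ⊆ a → P b = 0 ∨ P b = P a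

end Pool.Agent.Lib.MP_4f3acd_an.RN
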