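import Pool.Agent.Lib.MP_4f3acd_an.RNStableDef
import Pool.Agent.Lib.MP_4f3acd_an.RNAtoms
import Pool.Agent.Lib.MP_4f3acd_an.RNCounter

set_option autoImplicit false

namespace Pool.Agent.Lib.MP_4f3acd_an.RN

open MeasureTheory Filter Topology Set

variable {Ω : Type} [MeasurableSpace Ω] {P : Measure Ω} {𝕜 : Type} [RCLike 𝕜] {E E₁ E₂ : Type}
  [AddCommGroup E] [AddCommGroup E₁] [AddCommGroup E₂]

theorem stable_of_trivial [IsProbabilityMeasure P]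
    (h : ∀ a, MeasurableSet a → P a = 0 ∨ P a = 1) (M : RNMod P 𝕜 E) {S : Set E}
    (hS : S.Nonempty) : StableSet M S := by
  refine ⟨hS, fun a ha x hx => ?_⟩
  obtain ⟨k, hk⟩ : ∃ k, P (a k) = 1 := by
    by_contra hc
    have h0 : P (⋃ k, a k) = 0 :=
      measure_iUnion_null fun k => (h _ (ha.1 k)).resolve_right fun e => hc ⟨k, e⟩
    rw [ha.2.2, measure_univ] at h0
    exact one_ne_zero h0
  have hae : ∀ᵐ ω ∂P, ω ∈ a k := (mem_ae_iff_prob_eq_one (ha.1 k)).2 hk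
  refine ⟨x k, hx k, (RNMod.glue_iff ha.1).2 fun j => ?_⟩
  filter_upwards [hae, M.d_self (x k)] with ω h1 h2 h3
  have : j = k := by
    by_contra hne
    exact Set.disjoint_left.1 (ha.2.1 hne) h3 h1
  rw [this]; exact h2

theorem iff_of_trivial [IsProbabilityMeasure P] (h : ∀ a, MeasurableSet a → P a = 0 ∨ P a = 1)
    {M₁ : RNMod P 𝕜 E₁} {M₂ : RNMod P 𝕜 E₂} {X : Set E₁} {Y : Set E₂} {F : E₁ → Set E₂}
    (hX : StableSet M₁ X) (hY : StableSet M₂ Y) (hF : StableMap M₁ M₂ X Y F) :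
    UscRS M₁ M₂ X F ↔ UscS M₁ M₂ X Y F := by
  have hg := good_of hX hY hF
  constructor
  · intro hr x₀ hx U hU _ hFU
    refine uscC_of_uscRS hg ?_ hr x₀ hx U ⟨U, hU, hFU, subset_rfl⟩
    rintro ⟨a, ha, hd⟩
    have h1 : ∀ n, ∀ᵐ ω ∂P, ω ∈ a n := fun n =>
      (mem_ae_iff_prob_eq_one (ha n).1).2 ((h _ (ha n).1).resolve_left (ha n).2.1)
    obtain ⟨ω, h2, h3⟩ := ((h1 0).and (h1 1)).exists
    exact Set.disjoint_left.1 (hd (show (0 : ℕ) ≠ 1 by norm_num)) h2 h3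
  · intro hs
    refine uscRS_of_uscC hg ?_
    rintro x₀ hx U ⟨O, hO, hFO, hOU⟩
    obtain ⟨y, hy⟩ := (hF.1 x₀ hx).1
    obtain ⟨V, hV, hFV⟩ := hs x₀ hx O hO
      (stable_of_trivial h M₂ ⟨y, hFO hy, (hF.1 x₀ hx).2 hy⟩) hFO
    exact ⟨V, hV, fun x hx' => (hFV x hx').trans hOU⟩

/-- The elements that agree with x on a. -/
def agreeOn (P : Measure Ω) (a : Set Ω) (x : Ω →ₘ[P] 𝕜) : Set (Ω →ₘ[P] 𝕜) :=
  {y | ∀ᵐ ω ∂P, ω ∈ a → y ω = x ω}

theorem self_mem_agreeOn (a : Set Ω) (x : Ω →ₘ[P] 𝕜) : x ∈ agreeOn P a x :=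
  show ∀ᵐ ω ∂P, ω ∈ a → x ω = x ω from Eventually.of_forall fun _ _ => rfl

theorem agreeOn_stable (a : Set Ω) :
    StableMap (selfMod P 𝕜) (selfMod P 𝕜) univ univ (agreeOn P a) := by
  refine ⟨fun x _ => ⟨⟨x, self_mem_agreeOn a x⟩, subset_univ _⟩,
    fun b hb x _ y _ hxy => ?_⟩
  rw [selfMod_glue hb.1] at hxy
  ext z
  constructor
  · intro hz
    refine ⟨mem_univ _, fun k => x k + (z - y), fun k => ?_, (selfMod_glue hb.1).2 fun k => ?_⟩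
    · filter_upwards [hz, AEEqFun.coeFn_add (x k) (z - y), AEEqFun.coeFn_sub z y]
        with ω h1 h2 h3 hω
      rw [h2, Pi.add_apply, h3, Pi.sub_apply, h1 hω, sub_self, add_zero]
    · filter_upwards [hxy k, AEEqFun.coeFn_add (x k) (z - y), AEEqFun.coeFn_sub z y]
        with ω h1 h2 h3 hω
      rw [h2, Pi.add_apply, h3, Pi.sub_apply, h1 hω]
      ring
  · rintro ⟨-, w, hw, hz⟩
    rw [selfMod_glue hb.1] at hz
    filter_upwards [ae_all_iff.2 hw, ae_all_iff.2 hz, ae_all_iff.2 hxy] with ω h1 h2 h3 hω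
    obtain ⟨k, hk⟩ := Set.mem_iUnion.1 (hb.2.2 ▸ Set.mem_univ ω : ω ∈ ⋃ k, b k)
    rw [h2 k hk, h3 k hk]
    exact h1 k hω

theorem stable_two {M : RNMod P 𝕜 E} {S : Set E} (hS : StableSet M S) {a : Set Ω}
    (ha : MeasurableSet a) {u v : E} (hu : u ∈ S) (hv : v ∈ S) :
    ∃ y ∈ S, M.Ag a y u ∧ M.Ag aᶜ y v := by
  obtain ⟨y, hy, hg⟩ := hS.2 _ (isPartition_fib (meas_two ha)) (fun k => if k = 0 then u else v)
    fun k => by split_ifs <;> assumption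
  exact ⟨y, hy, sel_two.1 ((glue_fib_iff (meas_two ha)).1 hg)⟩

theorem agreeOn_uscS {a : Set Ω} (ha : MeasurableSet a) :
    UscS (selfMod P 𝕜) (selfMod P 𝕜) univ univ (agreeOn P a) := by
  intro x₀ _ U hU hS hFU
  refine ⟨U, ⟨U, hU, singleton_subset_iff.2 (hFU (self_mem_agreeOn a x₀)),
    subset_rfl⟩, fun x hx z hz => ?_⟩
  obtain ⟨u, -, h1, h2⟩ := stable_two (selfMod_stable (P := P) (𝕜 := 𝕜)) ha (mem_univ x₀)
    (mem_univ z)
  obtain ⟨y, hy, h3, h4⟩ := stable_two hS ha hx ⟨hFU (selfMod_ag.1 h1), mem_univ u⟩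
  have : z = y := AEEqFun.ext <| by
    filter_upwards [hz, selfMod_ag.1 h2, selfMod_ag.1 h3, selfMod_ag.1 h4] with ω c1 c2 c3 c4
    by_cases hω : ω ∈ a
    · rw [c1 hω, c3 hω]
    · rw [c4 hω, c2 hω]
  rw [this]; exact hy.1

theorem selfMod_d (x y : Ω →ₘ[P] 𝕜) : ∀ᵐ ω ∂P, (selfMod P 𝕜).d x y ω = ‖x ω - y ω‖ :=
  selfMod_nrm_sub x y

theorem agreeOn_not_uscRS [IsProbabilityMeasure P] {a : Set Ω} (ha : MeasurableSet a)
    (h0 : P a ≠ 0) (h1 : P aᶜ ≠ 0) :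
    ¬ UscRS (selfMod P 𝕜) (selfMod P 𝕜) univ (agreeOn P a) := by
  intro h
  have hc := real_pos h0
  have hc' := real_pos h1
  let c : ℝ → Ω →ₘ[P] 𝕜 := fun r => AEEqFun.const Ω (r : 𝕜)
  have hcv : ∀ r, ∀ᵐ ω ∂P, c r ω = (r : 𝕜) := fun r => AEEqFun.coeFn_const Ω (r : 𝕜)
  obtain ⟨N, hN, y, -, hs, hC⟩ := h.rsat (mem_univ (c 0)) (fun n => c (1 / ((n : ℝ) + 1)))
    (fun _ => mem_univ _) (fun n => by
      filter_upwards [selfMod_d (c (1 / ((n : ℝ) + 1))) (c 0), hcv (1 / ((n : ℝ) + 1)), hcv 0]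
        with ω e1 e2 e3
      rw [e1, e2, e3, RCLike.ofReal_zero, sub_zero, RCLike.norm_ofReal,
        abs_of_pos (by positivity)])
    {w | ∃ j : ℕ, (∀ᵐ ω ∂P, ω ∈ aᶜ → w ω = ((j : ℝ) : 𝕜)) ∧
      P.real a / 2 ≤ P.real (a ∩ {ω | 1 / ((j : ℝ) + 1) ≤ ‖w ω‖})}
    fun y hy => by
      obtain ⟨m, hm⟩ := exists_real_gt (P := P) (s := aᶜ)
        (t := fun m : ℕ => aᶜ ∩ {ω | ‖y ω‖ + 1 ≤ (m : ℝ)})
        (fun i j hij ω hω => ⟨hω.1, show ‖y ω‖ + 1 ≤ (j : ℝ) from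
          le_trans (show ‖y ω‖ + 1 ≤ (i : ℝ) from hω.2) (Nat.cast_le.2 hij)⟩)
        (Eventually.of_forall fun ω hω => by
          obtain ⟨m, hm⟩ := exists_nat_ge (‖y ω‖ + 1)
          exact ⟨m, hω, hm⟩) (half_lt_self hc')
      have hm1 : 1 / ((m : ℝ) + 1) ≤ 1 := by
        rw [div_le_one (by positivity)]
        linarith [Nat.cast_nonneg (α := ℝ) m]
      refine ⟨1 / ((m : ℝ) + 1), min (P.real a / 2) (P.real aᶜ / 2), by positivity,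
        by positivity, ?_⟩
      rintro w ⟨j, hw1, hw2⟩
      rcases le_total m j with hj | hj
      · refine (min_le_right _ _).trans (hm.le.trans (real_mono_ae ?_))
        filter_upwards [hw1, selfMod_d w y] with ω e1 e2 e3
        have e4 : ‖y ω‖ + 1 ≤ (m : ℝ) := e3.2
        have e5 := norm_sub_norm_le (w ω) (y ω)
        rw [e1 e3.1, RCLike.norm_ofReal, abs_of_nonneg (Nat.cast_nonneg j), ← e1 e3.1] at e5
        have e6 : (m : ℝ) ≤ j := Nat.cast_le.2 hj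
        show _ ≤ (selfMod P 𝕜).d w y ω
        rw [e2]; linarith
      · refine (min_le_left _ _).trans (hw2.trans (real_mono_ae ?_))
        filter_upwards [hy, hcv 0, selfMod_d w y] with ω e1 e2 e3 e4
        show _ ≤ (selfMod P 𝕜).d w y ω
        rw [e3, e1 e4.1, e2, RCLike.ofReal_zero, sub_zero]
        exact (Nat.one_div_le_one_div (α := ℝ) hj).trans e4.2
  obtain ⟨j, hj⟩ := exists_real_gt (P := P) (s := a) (t := fun j : ℕ => a ∩ {ω | N ω ≤ j})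
    (fun i k hik ω hω => ⟨hω.1, le_trans hω.2 hik⟩)
    (Eventually.of_forall fun ω hω => ⟨N ω, hω, le_refl (N ω)⟩) (half_lt_self hc)
  obtain ⟨w, -, h2, h3⟩ := stable_two (selfMod_stable (P := P) (𝕜 := 𝕜)) ha (mem_univ y)
    (mem_univ (c j))
  refine hC w (selfMod_ag.1 h2) ⟨j, ?_, hj.le.trans (real_mono_ae ?_)⟩
  · filter_upwards [selfMod_ag.1 h3, hcv j] with ω e1 e2 e3
    rw [e1 e3, e2]
  · filter_upwards [selfMod_ag.1 h2, hs, ae_all_iff.2 fun n : ℕ => hcv (1 / ((n : ℝ) + 1)),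
      ae_all_iff.2 fun n : ℕ => selfMod_d y (c (1 / ((n : ℝ) + 1)))] with ω e1 e2 e3 e4 e5
    refine ⟨e5.1, ?_⟩
    rw [e4, e3, norm_eq_zero, sub_eq_zero] at e2
    show _ ≤ ‖w ω‖
    rw [e1 e5.1, e2, RCLike.norm_ofReal, abs_of_pos (by positivity)]
    exact Nat.one_div_le_one_div (α := ℝ) e5.2

end Pool.Agent.Lib.MP_4f3acd_an.RN
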