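import Pool.Agent.Lib.MP_4f3acd_an.RNDefs

set_option autoImplicit false

namespace Pool.Agent.Lib.MP_4f3acd_an.RN

open MeasureTheory

variable {Ω : Type} [MeasurableSpace Ω] {P : Measure Ω} {𝕜 : Type} [RCLike 𝕜] {E₁ E₂ : Type}
  [AddCommGroup E₁] [AddCommGroup E₂]

/-- Upper semicontinuity for the locally L0-convex topologies, tested only on the open sets whose
trace on Y is sigma-stable. -/
def UscS (M₁ : RNMod P 𝕜 E₁) (M₂ : RNMod P 𝕜 E₂) (X : Set E₁) (Y : Set E₂) (F : E₁ → Set E₂) :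
    Prop :=
  ∀ x₀ ∈ X, ∀ U, OpenC M₂ U → StableSet M₂ (U ∩ Y) → F x₀ ⊆ U →
    ∃ V, Nbhd (OpenC M₁) {x₀} V ∧ ∀ x ∈ V ∩ X, F x ⊆ U

end Pool.Agent.Lib.MP_4f3acd_an.RN
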