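import Pool.Agent.Lib.MP_4f3acd_an.RNSumDefs
import Pool.Agent.Lib.MP_4f3acd_an.RNCore

set_option autoImplicit false

namespace Pool.Agent.Lib.MP_4f3acd_an.RN

open MeasureTheory Filter Topology Set

variable {Ω : Type} [MeasurableSpace Ω] {P : Measure Ω} {𝕜 : Type} [RCLike 𝕜] {E E₁ E₂ : Type}
  [AddCommGroup E] [AddCommGroup E₁] [AddCommGroup E₂]
  {M₁ : RNMod P 𝕜 E₁} {M₂ : RNMod P 𝕜 E₂} {X : Set E₁} {F : E₁ → Set E₂}

theorem openEL_far [IsProbabilityMeasure P] (M : RNMod P 𝕜 E) (C : Set E) :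
    OpenEL M {v | ∃ ε l : ℝ, 0 < ε ∧ 0 < l ∧ ∀ w ∈ C, l ≤ P.real {ω | ε ≤ M.d w v ω}} := by
  rintro v ⟨ε, l, hε, hl, hv⟩
  refine ⟨ε / 2, min (l / 2) (1 / 2), by positivity, by positivity,
    (min_le_right _ _).trans_lt (by norm_num), fun v' hv' =>
    ⟨ε / 2, l / 2, by positivity, by positivity, fun w hw => ?_⟩⟩
  have h1 := real_ge_eq M v' v (ε / 2)
  have h2 : P.real {ω | ε ≤ M.d w v ω} ≤
      P.real {ω | ε / 2 ≤ M.d w v' ω} + P.real {ω | ε / 2 ≤ M.d v' v ω} := by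
    refine real_le_add_ae ?_
    filter_upwards [M.d_tri w v' v] with ω h3 h4
    by_contra h5
    simp only [not_or, not_le] at h4 h5
    linarith [h5.1, h5.2]
  have h3 := hv w hw
  have h4 := min_le_left (l / 2) (1 / 2)
  linarith

theorem nbhd_ball (M : RNMod P 𝕜 E) (x₀ : E) {δ : Ω → ℝ} (h1 : Measurable δ) (h2 : ∀ ω, 0 < δ ω) :
    Nbhd (OpenC M) {x₀} {x | ∀ᵐ ω ∂P, M.d x x₀ ω < δ ω} := by
  refine ⟨_, fun x hx' => ?_, ?_, subset_rfl⟩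
  · have hm : AEStronglyMeasurable (fun ω => δ ω - M.d x x₀ ω) P :=
      (h1.sub (M.d_meas x x₀)).aestronglyMeasurable
    refine ⟨AEEqFun.mk _ hm, ?_, fun y hy => ?_⟩
    · filter_upwards [AEEqFun.coeFn_mk _ hm, hx'] with ω c1 c2
      rw [c1]; linarith
    · filter_upwards [AEEqFun.coeFn_mk _ hm, hy, M.d_tri y x x₀] with ω c1 c2 c3
      rw [c1] at c2
      have : M.d y x ω < δ ω - M.d x x₀ ω := c2
      linarith
  · refine singleton_subset_iff.2 ?_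
    filter_upwards [M.d_self x₀] with ω c1
    rw [c1]; exact h2 ω

theorem excessH [IsProbabilityMeasure P] (h : Good M₁ M₂ X F) (hr : HuscRS M₁ M₂ X F) {x₀ : E₁}
    (hx : x₀ ∈ X) {η : Ω → ℝ} (hη : Measurable η) (hη0 : ∀ᵐ ω ∂P, 0 < η ω) :
    Near M₁ M₂ X F x₀ univ η := by
  by_contra hn
  obtain ⟨D, x, z, hD, -, hD0, hxX, hz, hxd, hfar⟩ := h.dichotomy hx MeasurableSet.univ hη hn
  obtain ⟨m, hm⟩ := exists_real_gt (P := P) (s := D)
    (t := fun m : ℕ => D ∩ {ω | 1 / ((m : ℝ) + 1) ≤ η ω})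
    (fun a b hab ω hω => ⟨hω.1, le_trans (Nat.one_div_le_one_div (α := ℝ) hab) hω.2⟩)
    (hη0.mono fun ω h1 h2 => by
      obtain ⟨m, hm⟩ := exists_nat_one_div_lt h1
      exact ⟨m, h2, hm.le⟩) (real_pos hD0)
  have ht : TendstoInMeasure P (fun n => (M₁.nrm (x n - x₀) : Ω → ℝ)) atTop 0 := by
    refine tendstoInMeasure_of_tendsto_ae (fun n => (M₁.nrm (x n - x₀)).aestronglyMeasurable) ?_
    filter_upwards [ae_all_iff.2 hxd, ae_all_iff.2 fun n => M₁.d_nonneg (x n) x₀] with ω h1 h2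
    exact squeeze_zero h2 h1 tendsto_one_div_add_atTop_nhds_zero_nat
  obtain ⟨n, y, k₀, hn', -, hy, hF⟩ := hr x₀ hx x hxX ht _ ⟨_, openEL_far M₂
    {w | P.real (D ∩ {ω | 1 / ((m : ℝ) + 1) ≤ η ω}) ≤
      P.real {ω | 1 / ((m : ℝ) + 1) ≤ M₂.d w 0 ω}},
    singleton_subset_iff.2 ⟨1 / ((m : ℝ) + 1), _, by positivity, hm, fun w hw => hw⟩, subset_rfl⟩
  have hs := (glue_fib_iff (hn' k₀)).1 (hy k₀).2
  obtain ⟨w, hw, hsw⟩ := h.up _ (hn' k₀) x hxX _ (hy k₀).1 hs z hz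
  obtain ⟨v, hv, ε, l, hε, hl, hW⟩ := hF k₀ le_rfl w hw
  have h1 : P.real {ω | ε ≤ M₂.d (w - v) (w - v) ω} ≤ P.real (∅ : Set Ω) := by
    refine real_mono_ae ?_
    filter_upwards [M₂.d_self (w - v)] with ω h2 h3
    exact absurd (le_trans h3 h2.le) (not_le.2 hε)
  rw [measureReal_empty] at h1
  have h2 := hW (w - v) (real_mono_ae (by
    filter_upwards [hsw.left v, ae_all_iff.2 fun n => hfar n v hv] with ω c1 c2 c3
    have c4 : M₂.d (w - v) 0 ω = M₂.d w v ω := by simp only [RNMod.d, sub_zero]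
    show _ ≤ M₂.d (w - v) 0 ω
    rw [c4, c1]
    exact le_trans c3.2 (c2 _ c3.1).le))
  linarith

theorem huscC_of_huscRS [IsProbabilityMeasure P] (h : Good M₁ M₂ X F) (hr : HuscRS M₁ M₂ X F) :
    HuscC M₁ M₂ X F := by
  rintro x₀ hx W ⟨O, hO, h0, hOW⟩
  obtain ⟨ε, hε, hb⟩ := hO 0 (h0 rfl)
  obtain ⟨δ, h1, h2, h3⟩ := excessH h hr hx (η := fun ω => ε ω / 2) (ε.measurable.div_const 2)
    (hε.mono fun ω h => half_pos h)
  refine ⟨_, nbhd_ball M₁ x₀ h1 h2, fun x hx' z hz => ?_⟩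
  obtain ⟨v, hv, hd⟩ := h3 x hx'.2 hx'.1 z hz
  refine ⟨v, hv, hOW (hb _ ?_)⟩
  filter_upwards [hd, hε] with ω c1 c2
  rw [sub_zero]
  exact (c1 (mem_univ _)).trans_lt (half_lt_self c2)

theorem huscRS_of_huscC [IsProbabilityMeasure P] (h : Good M₁ M₂ X F) (hc : HuscC M₁ M₂ X F) :
    HuscRS M₁ M₂ X F := by
  rintro x₀ hx x hxX ht V ⟨O, hO, hFO, hOV⟩
  obtain ⟨W, ⟨O', hO', hxO, hOW⟩, hW⟩ := hc x₀ hx V ⟨O, hO.openC, hFO, hOV⟩
  obtain ⟨δ, hδ, hball⟩ := hO' x₀ (hxO rfl)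
  obtain ⟨ns, hns, hae⟩ := ht.exists_seq_tendsto_ae
  obtain ⟨K, hK, hK'⟩ := exists_index
    (fun m => ⋂ j, {ω | M₁.d (x (ns (m + j))) x₀ ω < δ ω})
    fun m => MeasurableSet.iInter fun j => measurableSet_lt (M₁.d_meas _ _) δ.measurable
  have hm : ∀ k, Measurable fun ω => ns (K ω + k) := fun k =>
    (measurable_from_nat (f := fun m => ns (m + k))).comp hK
  choose y hy hs using fun k => h.selX _ (hm k) x hxX
  refine ⟨fun k ω => ns (K ω + k), y, 0, hm, fun k => Eventually.of_forall fun ω =>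
    hns (by omega), fun k => ⟨hy k, (glue_fib_iff (hm k)).2 (hs k)⟩, fun k _ =>
    hW _ ⟨hOW (hball _ ?_), hy k⟩⟩
  filter_upwards [hae, hδ, (hs k).left x₀] with ω h1 h2 h3
  obtain ⟨m, hm⟩ := eventually_atTop.1 (h1.eventually (gt_mem_nhds h2))
  have h4 := hK' ω m (mem_iInter.2 fun j => hm (m + j) (by omega))
  exact lt_of_eq_of_lt h3 (mem_iInter.1 h4 k)

end Pool.Agent.Lib.MP_4f3acd_an.RN
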