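import Pool.Agent.Lib.MP_4f3acd_an.RNDefs

set_option autoImplicit false

namespace Pool.Agent.Lib.MP_4f3acd_an.RN

open MeasureTheory Filter

variable {Ω : Type} [MeasurableSpace Ω] {P : Measure Ω} {𝕜 : Type} [RCLike 𝕜] {E₁ E₂ : Type}
  [AddCommGroup E₁] [AddCommGroup E₂]

/-- Hausdorff upper semicontinuity of F on X for the locally L0-convex topologies: the value at
the point is enlarged by a neighbourhood of zero. -/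
def HuscC (M₁ : RNMod P 𝕜 E₁) (M₂ : RNMod P 𝕜 E₂) (X : Set E₁) (F : E₁ → Set E₂) : Prop :=
  ∀ x₀ ∈ X, ∀ W, Nbhd (OpenC M₂) {0} W →
    ∃ V, Nbhd (OpenC M₁) {x₀} V ∧ ∀ x ∈ V ∩ X, ∀ z ∈ F x, ∃ v ∈ F x₀, z - v ∈ W

/-- Random sequential Hausdorff upper semicontinuity of F on X. -/
def HuscRS (M₁ : RNMod P 𝕜 E₁) (M₂ : RNMod P 𝕜 E₂) (X : Set E₁) (F : E₁ → Set E₂) : Prop :=
  ∀ x₀ ∈ X, ∀ x : ℕ → E₁, (∀ n, x n ∈ X) →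
    TendstoInMeasure P (fun n => (M₁.nrm (x n - x₀) : Ω → ℝ)) atTop 0 →
    ∀ W, Nbhd (OpenEL M₂) {0} W →
      ∃ (n : ℕ → Ω → ℕ) (y : ℕ → E₁) (k₀ : ℕ), (∀ k, Measurable (n k)) ∧
        (∀ k, ∀ᵐ ω ∂P, n k ω < n (k + 1) ω) ∧
        (∀ k, y k ∈ X ∧ Glue M₁ (fun l => {ω | n k ω = l}) x (y k)) ∧
        ∀ k ≥ k₀, ∀ z ∈ F (y k), ∃ v ∈ F x₀, z - v ∈ W

end Pool.Agent.Lib.MP_4f3acd_an.RN
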